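import Pool.Agent.H642.CQ.Model

set_option autoImplicit false
set_option linter.unusedSectionVars false

/-! Codes of repelling and attracting fixed points. -/

namespace Pool.Agent.H642.CQ

open Set
open Pool.Agent.H642.CH (it it_zero it_one it_add it_neg it_neg' it_cont it_inv it_symm
  cpt_mono RepAt Bp)

variable {Z : Type} [TopologicalSpace Z] [CompactSpace Z] [T2Space Z]
  [SecondCountableTopology Z] [TotallyDisconnectedSpace Z]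

variable (Z) in
theorem exists_cl : ∃ cl : ℕ → Set Z, ∀ A, IsClopen A ↔ ∃ n, cl n = A := by
  have h1 : Countable (TopologicalSpace.Clopens Z) :=
    (TopologicalSpace.Clopens.countable_iff_secondCountable).2 inferInstance
  obtain ⟨g, hg⟩ := exists_surjective_nat (TopologicalSpace.Clopens Z)
  refine ⟨fun n => g n, fun A => ⟨fun hA => ?_, ?_⟩⟩
  · obtain ⟨n, hn⟩ := hg ⟨A, hA⟩
    refine ⟨n, ?_⟩
    show (g n : Set Z) = A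
    rw [hn]
    rfl
  · rintro ⟨n, rfl⟩
    exact (g n).isClopen

/-- an enumeration of the clopen sets -/
noncomputable def cl : ℕ → Set Z := (exists_cl Z).choose

theorem cl_clopen (n : ℕ) : IsClopen (cl n : Set Z) :=
  ((exists_cl Z).choose_spec _).2 ⟨n, rfl⟩

theorem cl_surj {A : Set Z} (h : IsClopen A) : ∃ n, cl n = A :=
  ((exists_cl Z).choose_spec _).1 h

/-- `A n` are the clopen sets; repelling codes -/
def RC (f : Z ≃ₜ Z) (u : ℕ) : Prop := ∃ p, RepAt f (cl u) p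

/-- the codes `u` and `v` belong to the same point -/
def Sm (f : Z ≃ₜ Z) (u v : ℕ) : Prop := ∃ n : ℕ, ∀ x ∈ cl u, it f (-n) x ∈ cl v

/-- minimal codes -/
def PV (f : Z ≃ₜ Z) (u : ℕ) : Prop := RC f u ∧ ∀ v < u, ¬ (RC f v ∧ Sm f v u)

/-- the unstable set of `u` meets the stable set of `w` -/
def Me (f : Z ≃ₜ Z) (u w : ℕ) : Prop := ∃ x ∈ cl u, ∃ n : ℕ, it f n x ∈ cl w

/-- adjacency of codes -/
def Ad (f : Z ≃ₜ Z) (u v : ℕ) : Prop := u ≠ v ∧ ∃ w, PV f⁻¹ w ∧ Me f u w ∧ Me f v w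

theorem pv_iff {f : Z ≃ₜ Z} {u : ℕ} : PV f u ↔ ∃ p, RepAt f (cl u) p ∧
    ∀ v < u, ¬ RepAt f (cl v) p := by
  constructor
  · rintro ⟨⟨p, hp⟩, h⟩
    exact ⟨p, hp, fun v hv hp' => h v hv ⟨⟨p, hp'⟩, (hp'.same_iff hp).2 rfl⟩⟩
  · rintro ⟨p, hp, h⟩
    refine ⟨⟨p, hp⟩, fun v hv => ?_⟩
    rintro ⟨⟨q, hq⟩, h1⟩
    rw [Sm, hq.same_iff hp] at h1
    subst h1
    exact h v hv hq

theorem exists_pv {f : Z ≃ₜ Z} {A : Set Z} {p : Z} (h : RepAt f A p) :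
    ∃ u, PV f u ∧ RepAt f (cl u) p := by
  classical
  obtain ⟨n, rfl⟩ := cl_surj h.cl
  have hex : ∃ u, RepAt f (cl u) p := ⟨n, h⟩
  refine ⟨Nat.find hex, pv_iff.2 ⟨p, Nat.find_spec hex, fun v hv => Nat.find_min hex hv⟩,
    Nat.find_spec hex⟩

theorem pv_uniq {f : Z ≃ₜ Z} {u v : ℕ} {p : Z} (hu : PV f u) (hv : PV f v)
    (h : RepAt f (cl u) p) (h' : RepAt f (cl v) p) : u = v := by
  obtain ⟨q, hq, h1⟩ := pv_iff.1 hu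
  obtain ⟨q', hq', h1'⟩ := pv_iff.1 hv
  have e1 := hq.uniq h
  have e2 := hq'.uniq h'
  subst e1
  subst e2
  rcases lt_trichotomy u v with h2 | h2 | h2
  · exact (h1' u h2 h).elim
  · exact h2
  · exact (h1 v h2 h').elim

/-- the homeomorphisms which come from graphs -/
structure Good (Q : Type) [TopologicalSpace Q] (f : Z ≃ₜ Z) : Prop where
  g0 : ∀ u w, RC f u → RC f⁻¹ w → ∃ n : ℕ, ∀ x, it f n x ∈ cl u → x ∉ cl w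
  g1 : ∀ N, ∃ u, N ≤ u ∧ PV f u
  g2 : ∀ u w, RC f u → RC f⁻¹ w → ∃ N : ℕ, ∀ x, x ∉ cl u → it f (-1) x ∈ cl u →
    ∀ n : ℕ, it f n x ∈ cl w → it f N x ∈ cl w
  g3 : ∀ u, RC f u → ∃! z, (z ∉ cl u ∧ it f (-1) z ∈ cl u) ∧
    ∀ w, RC f⁻¹ w → ∀ n : ℕ, it f n z ∉ cl w
  g4 : ∃! z, (∀ u, RC f u → ∀ n : ℕ, it f (-n) z ∉ cl u) ∧
    ∀ w, RC f⁻¹ w → ∀ n : ℕ, it f n z ∉ cl w
  g5 : ∀ w, RC f⁻¹ w → ∃ u1 u2, RC f u1 ∧ RC f u2 ∧ ∃ N : ℕ, ∀ x, x ∈ cl w →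
    it f (-1) x ∉ cl w → it f (-N) x ∈ cl u1 ∨ it f (-N) x ∈ cl u2
  g6 : ∀ u v w w', PV f u → PV f v → u ≠ v → PV f⁻¹ w → PV f⁻¹ w' → Me f u w → Me f v w →
    Me f u w' → Me f v w' → w = w'
  g7 : ∀ u, PV f u → ∀ N, ∃ w, N ≤ w ∧ PV f⁻¹ w ∧ Me f u w ∧ ∀ v, PV f v → Me f v w → v = u
  g8 : ∀ w, RC f⁻¹ w → ∃ u, PV f u ∧ Me f u w
  g9 : ∀ u w, RC f u → RC f⁻¹ w → Me f u w → ∃ N : ℕ, (∀ x, x ∉ cl u → it f (-1) x ∈ cl u →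
    ∀ n : ℕ, it f n x ∈ cl w → it f N x ∈ cl w) ∧ ∃ m, Nonempty ((cl m : Set Z) ≃ₜ Q) ∧
    ∀ x, x ∈ cl m ↔ (x ∉ cl u ∧ it f (-1) x ∈ cl u) ∧ it f N x ∈ cl w

end Pool.Agent.H642.CQ
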