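import Pool.Agent.H642.CQ.DB
import Pool.Graph.R_seed8.W889.SD.Enum

set_option autoImplicit false
set_option linter.unusedSectionVars false

/-! From topological data to a marking. -/

namespace Pool.Agent.H642.CQ

open Set
open Pool.Agent.H642.CH (it it_zero it_one it_add it_neg it_neg' it_cont it_inv it_symm
  cpt_mono RepAt Bp)

variable {Z : Type} [TopologicalSpace Z] [CompactSpace Z] [T2Space Z]
  [SecondCountableTopology Z] [TotallyDisconnectedSpace Z]

/-- the data from which the marking is constructed -/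
structure Dt (f : Z ≃ₜ Z) (V E : Type) (R : V → E → Prop) (Q : Type) [TopologicalSpace Q] where
  A : V → Set Z
  pV : V → Z
  hV : ∀ v, RepAt f (A v) (pV v)
  B : E → Set Z
  pE : E → Z
  hE : ∀ e, RepAt f⁻¹ (B e) (pE e)
  dV : ∀ v v' x a b, it f a x ∈ A v → it f b x ∈ A v' → v = v'
  dE : ∀ e e' x a b, it f a x ∈ B e → it f b x ∈ B e' → e = e'
  hR : ∀ v e x a b, it f a x ∈ A v → it f b x ∈ B e → R v e
  ne : ∀ v e, pE e ∉ A v
  U : E → Set Z
  clU : ∀ e, IsClopen (U e)
  hU : ∀ e x, x ∈ U e ↔ x = pE e ∨ ∃ v, (∃ a, it f a x ∈ A v) ∧ x ∉ A v ∧ ∃ b, it f b x ∈ B e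
  C : V → E → Set Z
  hC : ∀ v e x, x ∈ C v e ↔ (x ∉ A v ∧ it f (-1) x ∈ A v) ∧ ∃ b, it f b x ∈ B e
  g : V → E → Z → Q
  clg : ∀ v e S, IsClopen S → IsClopen {x | x ∈ C v e ∧ g v e x ∈ S}
  hg : ∀ v e, R v e → ∀ c, ∃! x, x ∈ C v e ∧ g v e x = c
  far : ∀ e x b, it f b x ∈ B e → x ≠ pE e → ∃ v a, it f a x ∈ A v
  wan : ∀ v, ∃! z, (z ∉ A v ∧ it f (-1) z ∈ A v) ∧ ∀ e b, it f b z ∉ B e
  inf : ∃! z, (∀ v a, it f a z ∉ A v) ∧ ∀ e b, it f b z ∉ B e

namespace Dt

variable {Q : Type} [TopologicalSpace Q] {V E : Type} {R : V → E → Prop} {f : Z ≃ₜ Z}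
  (D : Dt f V E R Q)

/-- the point `x` has the label `p` -/
structure Rel (x : Z) (p : Pt V E R Q) : Prop where
  v : ∀ v n, it f (-n) x ∈ D.A v ↔ inV v n p
  e : ∀ e n, it f (-n) x ∈ D.U e ↔ inE e n p
  c : ∀ v e n S, IsClopen S → ((it f (-n) x ∈ D.C v e ∧ D.g v e (it f (-n) x) ∈ S) ↔
    inC v e n S p)

theorem rel_sh {x : Z} {p : Pt V E R Q} (h : D.Rel x p) (k : ℤ) : D.Rel (it f k x) (sh k p) := by
  have e1 : ∀ n : ℤ, it f (-n) (it f k x) = it f (-(n - k)) x := by
    intro n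
    rw [← it_add]
    congr 1
    ring
  refine ⟨fun v n => ?_, fun e n => ?_, fun v e n S hS => ?_⟩
  · rw [e1, inV_sh]
    exact h.v v _
  · rw [e1, inE_sh]
    exact h.e e _
  · rw [e1, inC_sh]
    exact h.c v e _ S hS

theorem fixE (e : E) (k : ℤ) : it f k (D.pE e) = D.pE e := by
  have := (D.hE e).fix (-k)
  rwa [it_inv, neg_neg] at this

theorem fixV (v : V) (k : ℤ) : it f k (D.pV v) = D.pV v := (D.hV v).fix k

theorem pV_ne (v : V) (e : E) : D.pV v ≠ D.pE e := fun h => D.ne v e (h ▸ (D.hV v).mem)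

theorem rel_rep (v : V) : D.Rel (D.pV v) (.rep v) := by
  refine ⟨fun v' n => ?_, fun e n => ?_, fun v' e n S hS => ?_⟩
  · rw [D.fixV]
    constructor
    · intro h
      exact D.dV v v' (D.pV v) 0 0 (by rw [it_zero]; exact (D.hV v).mem) (by rwa [it_zero])
    · rintro h
      have : v = v' := h
      subst this
      exact (D.hV v).mem
  · rw [D.fixV]
    refine iff_of_false (fun h => ?_) (fun h => h)
    rcases (D.hU e _).1 h with h1 | ⟨v', ⟨a, h1⟩, h2, h3⟩
    · exact D.pV_ne v e h1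
    · have : v = v' := D.dV v v' (D.pV v) 0 a (by rw [it_zero]; exact (D.hV v).mem) h1
      subst this
      exact h2 (D.hV v).mem
  · rw [D.fixV]
    refine iff_of_false (fun h => ?_) (fun h => h)
    obtain ⟨⟨h1, h2⟩, -⟩ := (D.hC v' e _).1 h.1
    rw [D.fixV] at h2
    exact h1 h2

theorem rel_att (e : E) : D.Rel (D.pE e) (.att e) := by
  refine ⟨fun v' n => ?_, fun e' n => ?_, fun v' e' n S hS => ?_⟩
  · rw [D.fixE]
    exact iff_of_false (fun h => D.ne v' e h) (fun h => h)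
  · rw [D.fixE]
    constructor
    · intro h
      rcases (D.hU e' _).1 h with h1 | ⟨v', ⟨a, h1⟩, h2, h3⟩
      · refine D.dE e e' (D.pE e) 0 0 ?_ ?_
        · rw [it_zero]
          exact (D.hE e).mem
        · rw [it_zero, h1]
          exact (D.hE e').mem
      · rw [D.fixE] at h1
        exact (D.ne v' e h1).elim
    · intro h
      have : e = e' := h
      subst this
      exact (D.hU e _).2 (Or.inl rfl)
  · rw [D.fixE]
    refine iff_of_false (fun h => ?_) (fun h => h)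
    obtain ⟨⟨h1, h2⟩, -⟩ := (D.hC v' e' _).1 h.1
    rw [D.fixE] at h2
    exact h1 h2

theorem rel_inf {x : Z} (h1 : ∀ v a, it f a x ∉ D.A v) (h2 : ∀ e b, it f b x ∉ D.B e) :
    D.Rel x .inf := by
  refine ⟨fun v' n => iff_of_false (h1 _ _) (fun h => h),
    fun e' n => iff_of_false (fun h => ?_) (fun h => h),
    fun v' e' n S hS => iff_of_false (fun h => ?_) (fun h => h)⟩
  · rcases (D.hU e' _).1 h with h3 | ⟨v', ⟨a, h3⟩, h4, h5⟩
    · apply h2 e' (-n)
      rw [h3]
      exact (D.hE e').mem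
    · rw [← it_add] at h3
      exact h1 _ _ h3
  · obtain ⟨⟨-, h3⟩, -⟩ := (D.hC v' e' _).1 h.1
    rw [← it_add] at h3
    exact h1 _ _ h3

theorem exit_iff {v : V} {z : Z} (h1 : z ∉ D.A v) (h2 : it f (-1) z ∈ D.A v) (n : ℤ) :
    it f (-n) z ∈ D.A v ↔ 0 < n := by
  constructor
  · intro h
    by_contra hcon
    have := (D.hV v).bwz (a := 0) (b := -n) (by omega) h
    rw [it_zero] at this
    exact h1 this
  · intro h
    exact (D.hV v).bwz (by omega) h2

theorem rel_wan {v : V} {z : Z} (h1 : z ∉ D.A v) (h2 : it f (-1) z ∈ D.A v)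
    (h3 : ∀ e b, it f b z ∉ D.B e) : D.Rel z (.wan v 0) := by
  refine ⟨fun v' n => ?_, fun e' n => iff_of_false (fun h => ?_) (fun h => h),
    fun v' e' n S hS => iff_of_false (fun h => ?_) (fun h => h)⟩
  · constructor
    · intro h
      have h4 : v = v' := D.dV v v' z _ _ h2 h
      subst h4
      exact ⟨rfl, (D.exit_iff h1 h2 n).1 h⟩
    · rintro ⟨h4, h5⟩
      subst h4
      exact (D.exit_iff h1 h2 n).2 h5
  · rcases (D.hU e' _).1 h with h4 | ⟨v', ⟨a, h4⟩, h5, ⟨b, h6⟩⟩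
    · apply h3 e' (-n)
      rw [h4]
      exact (D.hE e').mem
    · rw [← it_add] at h6
      exact h3 _ _ h6
  · obtain ⟨-, b, h4⟩ := (D.hC v' e' _).1 h.1
    rw [← it_add] at h4
    exact h3 _ _ h4

theorem rel_blk {v : V} {e : E} {z : Z} (h : z ∈ D.C v e) (hr : R v e) :
    D.Rel z (.blk v e hr 0 (D.g v e z)) := by
  obtain ⟨⟨h1, h2⟩, b0, h3⟩ := (D.hC v e z).1 h
  refine ⟨fun v' n => ?_, fun e' n => ?_, fun v' e' n S hS => ?_⟩
  · constructor
    · intro h
      have h4 : v = v' := D.dV v v' z _ _ h2 h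
      subst h4
      exact ⟨rfl, (D.exit_iff h1 h2 n).1 h⟩
    · rintro ⟨h4, h5⟩
      subst h4
      exact (D.exit_iff h1 h2 n).2 h5
  · constructor
    · intro h'
      rcases (D.hU e' _).1 h' with h4 | ⟨v', ⟨a, h4⟩, h5, ⟨b, h6⟩⟩
      · exfalso
        have h5 : z = D.pE e' := by
          rw [← it_neg' f n z, h4, D.fixE]
        rw [h5, D.fixE] at h2
        exact D.ne _ _ h2
      · rw [← it_add] at h4 h6
        have h7 : v = v' := D.dV v v' z _ _ h2 h4
        subst h7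
        refine ⟨D.dE e e' z _ _ h3 h6, ?_⟩
        by_contra hcon
        exact h5 ((D.exit_iff h1 h2 n).2 (by omega))
    · rintro ⟨h4, h5⟩
      subst h4
      rw [D.hU]
      refine Or.inr ⟨v, ⟨n - 1, ?_⟩, fun h6 => ?_, ⟨b0 + n, ?_⟩⟩
      · rw [← it_add]
        convert h2 using 2
        ring
      · have := (D.exit_iff h1 h2 n).1 h6
        omega
      · rw [← it_add]
        convert h3 using 2
        ring
  · constructor
    · rintro ⟨h4, h5⟩
      obtain ⟨⟨h6, h7⟩, b, h8⟩ := (D.hC v' e' _).1 h4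
      rw [← it_add] at h7 h8
      have h9 : v = v' := D.dV v v' z _ _ h2 h7
      subst h9
      have h10 : e = e' := D.dE e e' z _ _ h3 h8
      subst h10
      have h11 : ¬ 0 < n := fun h => h6 ((D.exit_iff h1 h2 n).2 h)
      have h12 : 0 < n + 1 := (D.exit_iff h1 h2 (n + 1)).1 (by
        convert h7 using 2
        ring)
      have h13 : n = 0 := by omega
      subst h13
      refine ⟨rfl, rfl, rfl, ?_⟩
      rw [neg_zero, it_zero] at h5
      exact h5
    · rintro ⟨h4, h5, h6, h7⟩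
      subst h4 h5 h6
      rw [neg_zero, it_zero]
      exact ⟨h, h7⟩

/-- the exit time -/
theorem exit_time {v : V} {x : Z} {a : ℤ} (h : it f a x ∈ D.A v) (hne : x ≠ D.pV v) :
    ∃ n : ℤ, it f n x ∉ D.A v ∧ it f (-1) (it f n x) ∈ D.A v := by
  have h1 : ∃ n : ℕ, it f n x ∉ D.A v := by
    by_contra hcon
    push Not at hcon
    exact hne (((D.hV v).pt x).1 hcon)
  obtain ⟨n, hn⟩ := h1
  obtain ⟨m, hm, hmin⟩ := Int.exists_least_of_bdd (P := fun n => it f n x ∉ D.A v)
    ⟨a, fun z hz => by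
      by_contra hcon
      exact hz ((D.hV v).bwz (by omega) h)⟩ ⟨n, hn⟩
  refine ⟨m, hm, ?_⟩
  rw [← it_add]
  by_contra hcon
  have := hmin _ hcon
  omega

theorem rel_ex (x : Z) : ∃ p, D.Rel x p := by
  by_cases h1 : ∃ v a, it f a x ∈ D.A v
  · obtain ⟨v, a, ha⟩ := h1
    by_cases h2 : x = D.pV v
    · rw [h2]
      exact ⟨_, D.rel_rep v⟩
    · obtain ⟨n, h3, h4⟩ := D.exit_time ha h2
      have key : ∀ p, D.Rel (it f n x) p → ∃ p, D.Rel x p := by
        intro p hp
        have := D.rel_sh hp (-n)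
        rw [it_neg] at this
        exact ⟨_, this⟩
      by_cases h5 : ∃ e b, it f b x ∈ D.B e
      · obtain ⟨e, b, hb⟩ := h5
        refine key _ (D.rel_blk (v := v) (e := e) ?_ (D.hR v e x _ _ ha hb))
        rw [D.hC]
        refine ⟨⟨h3, h4⟩, b - n, ?_⟩
        rw [← it_add]
        convert hb using 2
        ring
      · push Not at h5
        refine key _ (D.rel_wan (v := v) h3 h4 fun e b => ?_)
        rw [← it_add]
        exact h5 _ _
  · push Not at h1
    by_cases h5 : ∃ e b, it f b x ∈ D.B e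
    · obtain ⟨e, b, hb⟩ := h5
      by_cases h6 : x = D.pE e
      · rw [h6]
        exact ⟨_, D.rel_att e⟩
      · obtain ⟨v, a, h7⟩ := D.far e x b hb h6
        exact (h1 v a h7).elim
    · push Not at h5
      exact ⟨_, D.rel_inf h1 h5⟩

/-- uniqueness for the labels -/
theorem rel_uniq [TotallySeparatedSpace Q] {x : Z} {p q : Pt V E R Q} (h : D.Rel x p) (h' : D.Rel x q) : p = q :=
  Pt.ext' (fun v n => (h.v v n).symm.trans (h'.v v n)) (fun e n => (h.e e n).symm.trans (h'.e e n))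
    (fun v e n S hS => (h.c v e n S hS).symm.trans (h'.c v e n S hS))

/-- if a point is in a stable set, then this is seen in the coordinates -/
theorem stable_coord {x : Z} {e : E} {b : ℤ} (h : it f b x ∈ D.B e) (h2 : ∀ v, x ∉ D.A v) :
    x ∈ D.U e := by
  rw [D.hU]
  by_cases h3 : x = D.pE e
  · exact Or.inl h3
  · obtain ⟨v, a, h4⟩ := D.far e x b h h3
    exact Or.inr ⟨v, ⟨a, h4⟩, h2 v, ⟨b, h⟩⟩

theorem U_sub {x : Z} {e : E} (h : x ∈ D.U e) : ∃ b, it f b x ∈ D.B e := by
  rcases (D.hU e x).1 h with h1 | ⟨-, -, -, h1⟩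
  · refine ⟨0, ?_⟩
    rw [h1, it_zero]
    exact (D.hE e).mem
  · exact h1

theorem rel_inj [TotallySeparatedSpace Q] {x y : Z} {p : Pt V E R Q} (h : D.Rel x p) (h' : D.Rel y p) : x = y := by
  cases p with
  | inf =>
    have key : ∀ x, D.Rel x .inf → (∀ v a, it f a x ∉ D.A v) ∧ ∀ e b, it f b x ∉ D.B e := by
      intro x hx
      have h1 : ∀ v a, it f a x ∉ D.A v := by
        intro v a ha
        have := (hx.v v (-a)).1 (by rwa [neg_neg])
        exact this
      refine ⟨h1, fun e b hb => ?_⟩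
      have h2 := D.stable_coord hb (fun v hv => h1 v 0 (by rwa [it_zero]))
      have := (hx.e e 0).1 (by rwa [neg_zero, it_zero])
      exact this
    exact D.inf.unique (key x h) (key y h')
  | rep v =>
    have key : ∀ x, D.Rel x (.rep v) → x = D.pV v := by
      intro x hx
      refine ((D.hV v).pt x).1 fun n => ?_
      have := (hx.v v (-n)).2 rfl
      rwa [neg_neg] at this
    rw [key x h, key y h']
  | att e =>
    have key : ∀ x, D.Rel x (.att e) → x = D.pE e := by
      intro x hx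
      by_contra hne
      have h1 : ∀ n : ℤ, it f (-n) x ∈ D.U e := fun n => (hx.e e n).2 rfl
      have h2 := h1 0
      rw [neg_zero, it_zero, D.hU] at h2
      rcases h2 with h2 | ⟨v, ⟨a, h3⟩, -⟩
      · exact hne h2
      · exact (hx.v v (-a)).1 (by rwa [neg_neg])
    rw [key x h, key y h']
  | wan v n =>
    have key : ∀ x, D.Rel x (.wan v n) → (it f (-n) x ∉ D.A v ∧ it f (-1) (it f (-n) x) ∈ D.A v) ∧
        ∀ e b, it f b (it f (-n) x) ∉ D.B e := by
      intro x hx
      have h1 : it f (-n) x ∉ D.A v := by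
        rw [hx.v]
        rintro ⟨-, h2⟩
        omega
      have h2 : it f (-1) (it f (-n) x) ∈ D.A v := by
        rw [← it_add, ← neg_add, hx.v]
        exact ⟨rfl, by omega⟩
      refine ⟨⟨h1, h2⟩, fun e b hb => ?_⟩
      have h3 := D.stable_coord hb (fun v' hv' => by
        have : v = v' := D.dV v v' (it f (-n) x) _ 0 h2 (by rwa [it_zero])
        subst this
        exact h1 hv')
      exact (hx.e e n).1 h3
    have h1 := (D.wan v).unique (key x h) (key y h')
    rw [← it_neg' f n x, h1, it_neg']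
  | blk v e hr n c =>
    have key : ∀ x, D.Rel x (.blk v e hr n c) → it f (-n) x ∈ D.C v e ∧
        D.g v e (it f (-n) x) = c := by
      intro x hx
      have h1 : it f (-n) x ∉ D.A v := by
        rw [hx.v]
        rintro ⟨-, h2⟩
        omega
      have h2 : it f (-1) (it f (-n) x) ∈ D.A v := by
        rw [← it_add, ← neg_add, hx.v]
        exact ⟨rfl, by omega⟩
      have h3 : it f (-n) x ∈ D.U e := (hx.e e n).2 ⟨rfl, le_refl _⟩
      have h4 : it f (-n) x ∈ D.C v e := (D.hC v e _).2 ⟨⟨h1, h2⟩, D.U_sub h3⟩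
      refine ⟨h4, ?_⟩
      by_contra hne
      obtain ⟨S, hS, h9, h10⟩ := exists_isClopen_of_totally_separated hne
      exact h10 ((hx.c v e n S hS).1 ⟨h4, h9⟩).2.2.2
    have h1 := (D.hg v e hr c).unique (key x h) (key y h')
    rw [← it_neg' f n x, h1, it_neg']

theorem rel_surj (p : Pt V E R Q) : ∃ x, D.Rel x p := by
  cases p with
  | inf =>
    obtain ⟨z, ⟨h1, h2⟩, -⟩ := D.inf
    exact ⟨z, D.rel_inf h1 h2⟩
  | rep v => exact ⟨_, D.rel_rep v⟩
  | att e => exact ⟨_, D.rel_att e⟩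
  | wan v n =>
    obtain ⟨z, ⟨⟨h1, h2⟩, h3⟩, -⟩ := D.wan v
    have := D.rel_sh (D.rel_wan h1 h2 h3) n
    refine ⟨it f n z, ?_⟩
    have e1 : (Pt.wan v n : Pt V E R Q) = sh n (.wan v 0) := by
      show _ = Pt.wan v (0 + n)
      rw [zero_add]
    rw [e1]
    exact this
  | blk v e hr n c =>
    obtain ⟨z, ⟨h1, h2⟩, -⟩ := D.hg v e hr c
    have := D.rel_sh (D.rel_blk h1 hr) n
    refine ⟨it f n z, ?_⟩
    have e1 : (Pt.blk v e hr n c : Pt V E R Q) = sh n (.blk v e hr 0 (D.g v e z)) := by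
      show _ = Pt.blk v e hr (0 + n) (D.g v e z)
      rw [zero_add, h2]
    rw [e1]
    exact this

theorem exists_mk [TotallySeparatedSpace Q] (D : Dt f V E R Q) : Nonempty (Mk f V E R Q) := by
  obtain ⟨Φ, hΦ⟩ := Pool.Agent.W889.SD.equiv_of_rel D.Rel D.rel_ex D.rel_surj
    (fun _ _ _ h h' => D.rel_uniq h h') (fun _ _ _ h h' => D.rel_inj h h')
  refine ⟨⟨Φ, fun y => ?_, fun v => ?_, fun e => ?_, fun v e S hS => ?_⟩⟩
  · have h1 := D.rel_sh (hΦ y) 1
    rw [it_one] at h1
    exact D.rel_uniq (hΦ (f y)) h1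
  · have : {y | inV v 0 (Φ y)} = D.A v := by
      ext y
      have := (hΦ y).v v 0
      rw [neg_zero, it_zero] at this
      exact this.symm
    rw [this]
    exact (D.hV v).cl
  · have : {y | inE e 0 (Φ y)} = D.U e := by
      ext y
      have := (hΦ y).e e 0
      rw [neg_zero, it_zero] at this
      exact this.symm
    rw [this]
    exact D.clU e
  · have : {y | inC v e 0 S (Φ y)} = {x | x ∈ D.C v e ∧ D.g v e x ∈ S} := by
      ext y
      have := (hΦ y).c v e 0 S hS
      rw [neg_zero, it_zero] at this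
      exact this.symm
    rw [this]
    exact D.clg v e S hS

end Dt

end Pool.Agent.H642.CQ
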