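import Pool.Agent.H642.CQ.Basic

set_option autoImplicit false
set_option linter.unusedSectionVars false

/-! Marked systems are good, part 1. -/

namespace Pool.Agent.H642.CQ

open Set
open Pool.Agent.H642.CH (it it_zero it_one it_add it_neg it_neg' it_cont it_inv it_symm
  cpt_mono RepAt Bp)

variable {Z : Type} [TopologicalSpace Z] [CompactSpace Z] [T2Space Z]
  [SecondCountableTopology Z] [TotallyDisconnectedSpace Z]

variable {Q : Type} [TopologicalSpace Q]

variable {V E : Type} {R : V → E → Prop} {f : Z ≃ₜ Z}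

/-- the neighbourhood of a repelling point -/
def aV (M : Mk f V E R Q) (v : V) (n : ℤ) : Set Z := {y | inV v n (M.Φ y)}

/-- the neighbourhood of an attracting point -/
def aE (M : Mk f V E R Q) (e : E) (n : ℤ) : Set Z := {y | inE e n (M.Φ y)}

/-- the point with a given label -/
def pt (M : Mk f V E R Q) (p : Pt V E R Q) : Z := M.Φ.symm p

theorem Φ_pt (M : Mk f V E R Q) (p : Pt V E R Q) : M.Φ (pt M p) = p := M.Φ.apply_symm_apply p

theorem pt_Φ (M : Mk f V E R Q) (x : Z) : pt M (M.Φ x) = x := M.Φ.symm_apply_apply x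

theorem eq_pt {M : Mk f V E R Q} {x : Z} {p : Pt V E R Q} (h : M.Φ x = p) : x = pt M p := by
  rw [← h, pt_Φ]

theorem it_pt (M : Mk f V E R Q) (p : Pt V E R Q) (k : ℤ) : it f k (pt M p) = pt M (sh k p) := by
  apply eq_pt
  rw [M.eq', Φ_pt]

theorem it_aV (M : Mk f V E R Q) (v : V) (n k : ℤ) (x : Z) :
    it f k x ∈ aV M v n ↔ x ∈ aV M v (n - k) := by
  show inV v n (M.Φ (it f k x)) ↔ inV v (n - k) (M.Φ x)
  rw [M.eq', inV_sh]

theorem it_aE (M : Mk f V E R Q) (e : E) (n k : ℤ) (x : Z) :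
    it f k x ∈ aE M e n ↔ x ∈ aE M e (n - k) := by
  show inE e n (M.Φ (it f k x)) ↔ inE e (n - k) (M.Φ x)
  rw [M.eq', inE_sh]

theorem inV_mono {v : V} {n m : ℤ} (h : n ≤ m) {p : Pt V E R Q} (hp : inV v n p) : inV v m p := by
  cases p with
  | inf => exact hp
  | rep _ => exact hp
  | att _ => exact hp
  | wan _ _ => exact ⟨hp.1, by have := hp.2; omega⟩
  | blk _ _ _ _ _ => exact ⟨hp.1, by have := hp.2; omega⟩

theorem inE_mono {e : E} {n m : ℤ} (h : n ≤ m) {p : Pt V E R Q} (hp : inE e m p) : inE e n p := by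
  cases p with
  | inf => exact hp
  | rep _ => exact hp
  | att _ => exact hp
  | wan _ _ => exact hp
  | blk _ _ _ _ _ => exact ⟨hp.1, by have := hp.2; omega⟩

theorem all_inV {v : V} {p : Pt V E R Q} (h : ∀ n : ℤ, inV v n p) : p = .rep v := by
  cases p with
  | inf => exact (h 0).elim
  | rep v' => rw [show v' = v from h 0]
  | att _ => exact (h 0).elim
  | wan _ n => exact absurd (h n).2 (lt_irrefl _)
  | blk _ _ _ n _ => exact absurd (h n).2 (lt_irrefl _)

theorem all_inE {e : E} {p : Pt V E R Q} (h : ∀ n : ℤ, inE e n p) : p = .att e := by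
  cases p with
  | inf => exact (h 0).elim
  | rep v' => exact (h 0).elim
  | att e' => rw [show e' = e from h 0]
  | wan _ n => exact (h 0).elim
  | blk _ _ _ n _ =>
    have := (h (n + 1)).2
    omega

theorem repA (M : Mk f V E R Q) (v : V) (n : ℤ) : RepAt f (aV M v n) (pt M (.rep v)) where
  cl := M.opV v n
  bw := fun x hx => by
    rw [it_aV]
    exact inV_mono (by omega) hx
  pt := fun x => by
    constructor
    · intro h
      apply eq_pt
      apply all_inV
      intro k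
      have h1 := h (n - k).natAbs
      rw [it_aV] at h1
      exact inV_mono (by omega) h1
    · rintro rfl k
      rw [it_pt]
      show inV v n (M.Φ (pt M _))
      rw [Φ_pt]
      exact rfl

theorem attA (M : Mk f V E R Q) (e : E) (n : ℤ) : RepAt f⁻¹ (aE M e n) (pt M (.att e)) where
  cl := M.opE e n
  bw := fun x hx => by
    rw [it_inv, it_aE]
    exact inE_mono (by omega) hx
  pt := fun x => by
    constructor
    · intro h
      apply eq_pt
      apply all_inE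
      intro k
      have h1 := h (k - n).natAbs
      rw [it_inv, it_aE] at h1
      exact inE_mono (by omega) h1
    · rintro rfl k
      rw [it_inv, it_pt]
      show inE e n (M.Φ (pt M _))
      rw [Φ_pt]
      exact rfl

/-- neighbourhoods of the point `inf` -/
theorem inf_nbhd (M : Mk f V E R Q) {W : Set Z} (hW : IsOpen W) (h : pt M .inf ∈ W) :
    ∃ (s : Finset V) (t : Finset E) (N : ℤ), ∀ x, (∀ v ∈ s, ¬ inV v N (M.Φ x)) →
      (∀ e ∈ t, ¬ inE e (-N) (M.Φ x)) → x ∈ W := by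
  classical
  let U : (V × ℕ) ⊕ (E × ℕ) → Set Z := fun i => match i with
    | .inl (v, n) => aV M v n
    | .inr (e, n) => aE M e (-n)
  have hU : ∀ i, IsOpen (U i) := by
    rintro (⟨v, n⟩ | ⟨e, n⟩)
    · exact (M.opV v n).isOpen
    · exact (M.opE e (-n)).isOpen
  obtain ⟨t, ht⟩ := hW.isClosed_compl.isCompact.elim_finite_subcover U hU (fun x hx => by
    rw [mem_iUnion]
    have hne : M.Φ x ≠ .inf := fun h1 => hx (by rw [eq_pt h1]; exact h)
    rcases hp : M.Φ x with _ | v | e | ⟨v, n⟩ | ⟨v, e, hr, n, c⟩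
    · exact (hne hp).elim
    · exact ⟨.inl (v, 0), by show inV v _ (M.Φ x); rw [hp]; exact rfl⟩
    · exact ⟨.inr (e, 0), by show inE e _ (M.Φ x); rw [hp]; exact rfl⟩
    · exact ⟨.inl (v, (n + 1).natAbs), by
        show inV v _ (M.Φ x); rw [hp]; exact ⟨rfl, by omega⟩⟩
    · exact ⟨.inl (v, (n + 1).natAbs), by
        show inV v _ (M.Φ x); rw [hp]; exact ⟨rfl, by omega⟩⟩)
  let num : (V × ℕ) ⊕ (E × ℕ) → ℕ := fun i => match i with
    | .inl (_, n) => n
    | .inr (_, n) => n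
  let cv : (V × ℕ) ⊕ (E × ℕ) → Option V := fun i => match i with
    | .inl (v, _) => some v
    | .inr _ => none
  let ce : (V × ℕ) ⊕ (E × ℕ) → Option E := fun i => match i with
    | .inl _ => none
    | .inr (e, _) => some e
  refine ⟨(t.image cv).eraseNone, (t.image ce).eraseNone, ((t.sup num : ℕ) : ℤ),
    fun x h1 h2 => ?_⟩
  by_contra hcon
  obtain ⟨i, hi, hx⟩ := mem_iUnion₂.1 (ht hcon)
  have h3 : num i ≤ t.sup num := Finset.le_sup hi
  rcases i with ⟨v, n⟩ | ⟨e, n⟩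
  · refine h1 v ?_ (inV_mono (n := n) (by exact_mod_cast h3) hx)
    rw [Finset.mem_eraseNone, Finset.mem_image]
    exact ⟨_, hi, rfl⟩
  · refine h2 e ?_ (inE_mono (m := -n) (by
      have : n ≤ t.sup num := h3
      omega) hx)
    rw [Finset.mem_eraseNone, Finset.mem_image]
    exact ⟨_, hi, rfl⟩

/-- a neighbourhood of `inf` contains some repelling point -/
theorem inf_rep (M : Mk f V E R Q) [Infinite V] {W : Set Z} (hW : IsOpen W)
    (h : pt M .inf ∈ W) : ∃ v, pt M (.rep v) ∈ W := by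
  obtain ⟨s, t, N, h1⟩ := inf_nbhd M hW h
  obtain ⟨v, hv⟩ := Infinite.exists_notMem_finset s
  refine ⟨v, h1 _ (fun v' hv' h2 => ?_) (fun e _ h2 => ?_)⟩
  · rw [Φ_pt] at h2
    have : v = v' := h2
    exact hv (this ▸ hv')
  · rw [Φ_pt] at h2
    exact h2

theorem fixed_pt {M : Mk f V E R Q} {x : Z} (h : it f 1 x = x) :
    M.Φ x = .inf ∨ (∃ v, M.Φ x = .rep v) ∨ ∃ e, M.Φ x = .att e := by
  have h1 : sh 1 (M.Φ x) = M.Φ x := by rw [← M.eq', h]
  rcases hp : M.Φ x with _ | v | e | ⟨v, n⟩ | ⟨v, e, hr, n, c⟩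
  · exact Or.inl rfl
  · exact Or.inr (Or.inl ⟨v, rfl⟩)
  · exact Or.inr (Or.inr ⟨e, rfl⟩)
  · rw [hp] at h1
    have h2 := (Pt.wan.inj h1).2
    omega
  · rw [hp] at h1
    have h2 := (Pt.blk.inj h1).2.2.1
    omega

theorem rep_of [Nonempty Q] {M : Mk f V E R Q} (hB : Bp V E R) {A : Set Z} {p : Z} (h : RepAt f A p) :
    ∃ v, M.Φ p = .rep v := by
  have := hB.inf
  rcases fixed_pt (M := M) (h.fix 1) with h1 | h1 | ⟨e, h1⟩
  · exfalso
    have e1 := eq_pt h1
    obtain ⟨v, hv⟩ := inf_rep M h.cl.isOpen (by rw [← e1]; exact h.mem)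
    have h2 := h.fixed hv (by rw [it_pt]; rfl)
    rw [← h2, Φ_pt] at h1
    exact absurd h1 (by simp)
  · exact h1
  · exfalso
    have e1 := eq_pt h1
    obtain ⟨N, hN⟩ := (attA M e 0).shrink h.cl.isOpen (by rw [← e1]; exact h.mem)
    obtain ⟨v, hv⟩ := hB.ne e
    obtain ⟨c₀⟩ := ‹Nonempty Q›
    have h2 : ∀ k : ℤ, pt M (.blk v e hv k c₀) ∈ A := by
      intro k
      have h3 : ∀ m : ℕ, pt M (.blk v e hv (N + m) c₀) ∈ A := by
        intro m
        have := hN (pt M (.blk v e hv m c₀)) (by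
          show inE e 0 (M.Φ _)
          rw [Φ_pt]
          exact ⟨rfl, by omega⟩) N (le_refl _)
        rw [it_inv, it_pt, neg_neg] at this
        rw [add_comm]
        exact this
      have h4 := h.bwz (a := k - N - k.natAbs) (b := 0) (by omega)
        (x := pt M (.blk v e hv (N + k.natAbs) c₀))
        (by rw [it_zero]; exact h3 _)
      rw [it_pt] at h4
      convert h4 using 2
      show _ = Pt.blk v e hv (N + k.natAbs + (k - N - k.natAbs)) _
      congr 1
      ring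
    have h5 := (h.pt (pt M (.blk v e hv 0 c₀))).1 (fun n => by
      rw [it_pt]
      exact h2 _)
    rw [← h5, Φ_pt] at h1
    exact absurd h1 (by simp)

theorem att_of {M : Mk f V E R Q} (hB : Bp V E R) {A : Set Z} {p : Z} (h : RepAt f⁻¹ A p) :
    ∃ e, M.Φ p = .att e := by
  have := hB.inf
  have hfix : it f 1 p = p := by
    have := h.fix (-1)
    rwa [it_inv, neg_neg] at this
  rcases fixed_pt (M := M) hfix with h1 | ⟨v, h1⟩ | h1
  · exfalso
    have e1 := eq_pt h1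
    obtain ⟨v, hv⟩ := inf_rep M h.cl.isOpen (by rw [← e1]; exact h.mem)
    have h2 := h.fixed hv (by rw [it_inv, it_pt]; rfl)
    rw [← h2, Φ_pt] at h1
    exact absurd h1 (by simp)
  · exfalso
    have e1 := eq_pt h1
    obtain ⟨N, hN⟩ := (repA M v 0).shrink h.cl.isOpen (by rw [← e1]; exact h.mem)
    have h2 : ∀ k : ℤ, pt M (.wan v k) ∈ A := by
      intro k
      have h3 : ∀ m : ℕ, pt M (.wan v (-1 - m - N)) ∈ A := by
        intro m
        have := hN (pt M (.wan v (-1 - m))) (by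
          show inV v 0 (M.Φ _)
          rw [Φ_pt]
          exact ⟨rfl, by omega⟩) N (le_refl _)
        rw [it_pt] at this
        exact this
      have h4 := h.bwz (a := -(k + 1 + N + k.natAbs)) (b := 0) (by omega)
        (x := pt M (.wan v (-1 - k.natAbs - N)))
        (by rw [it_zero]; exact h3 _)
      rw [it_inv, it_pt] at h4
      convert h4 using 2
      show _ = Pt.wan v (-1 - k.natAbs - N + _)
      congr 1
      ring
    have h5 := (h.pt (pt M (.wan v 0))).1 (fun n => by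
      rw [it_inv, it_pt]
      exact h2 _)
    rw [← h5, Φ_pt] at h1
    exact absurd h1 (by simp)
  · exact h1

/-- the unstable set -/
theorem wu_iff {M : Mk f V E R Q} {A : Set Z} {v : V} (h : RepAt f A (pt M (.rep v))) {x : Z} :
    (∃ n : ℕ, it f (-n) x ∈ A) ↔ ∃ n : ℕ, inV v n (M.Φ x) := by
  constructor
  · rintro ⟨n, hn⟩
    obtain ⟨m, hm⟩ := h.wun (repA M v 0) hn
    rw [it_aV] at hm
    exact ⟨m, inV_mono (by omega) hm⟩
  · rintro ⟨n, hn⟩
    exact (repA M v n).wun h (a := 0) (by rw [it_zero]; exact hn)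

/-- the stable set -/
theorem ws_iff {M : Mk f V E R Q} {B : Set Z} {e : E} (h : RepAt f⁻¹ B (pt M (.att e))) {x : Z} :
    (∃ n : ℕ, it f n x ∈ B) ↔ ∃ n : ℕ, inE e (-n) (M.Φ x) := by
  constructor
  · rintro ⟨n, hn⟩
    obtain ⟨m, hm⟩ := h.wun (attA M e 0) (a := -n) (by rwa [it_inv, neg_neg])
    rw [it_inv, neg_neg, it_aE] at hm
    exact ⟨m, inE_mono (by omega) hm⟩
  · rintro ⟨n, hn⟩
    obtain ⟨m, hm⟩ := (attA M e (-n)).wun h (a := 0) (x := x) (by rw [it_zero]; exact hn)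
    rw [it_inv, neg_neg] at hm
    exact ⟨m, hm⟩

theorem inV_nat {v : V} {n : ℤ} {p : Pt V E R Q} (h : inV v n p) : ∃ k : ℕ, inV v k p :=
  ⟨n.natAbs, inV_mono (by omega) h⟩

theorem inE_nat {e : E} {n : ℤ} {p : Pt V E R Q} (h : inE e n p) : ∃ k : ℕ, inE e (-k) p :=
  ⟨n.natAbs, inE_mono (by omega) h⟩

/-- adjacency in the bipartite graph -/
theorem me_iff [Nonempty Q] {M : Mk f V E R Q} {A B : Set Z} {v : V} {e : E}
    (h : RepAt f A (pt M (.rep v))) (h' : RepAt f⁻¹ B (pt M (.att e))) :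
    (∃ x ∈ A, ∃ n : ℕ, it f n x ∈ B) ↔ R v e := by
  constructor
  · rintro ⟨x, hx, hn⟩
    obtain ⟨n, h1⟩ := (wu_iff h).1 ⟨0, by simpa [it_zero] using hx⟩
    obtain ⟨m, h2⟩ := (ws_iff h').1 hn
    obtain ⟨hr, -⟩ := blk_of h1 h2
    exact hr
  · intro hr
    obtain ⟨c₀⟩ := ‹Nonempty Q›
    obtain ⟨n, hn⟩ := (wu_iff h (x := pt M (.blk v e hr 0 c₀))).2
      ⟨1, by rw [Φ_pt]; exact ⟨rfl, by omega⟩⟩
    rw [it_pt] at hn
    refine ⟨_, hn, ?_⟩
    refine (ws_iff h').2 ⟨n, ?_⟩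
    rw [Φ_pt]
    refine ⟨rfl, ?_⟩
    omega

theorem wsC (M : Mk f V E R Q) (hB : Bp V E R) {z : Z} :
    (∀ w, RC f⁻¹ w → ∀ n : ℕ, it f n z ∉ cl w) ↔ ∀ e n, ¬ inE e n (M.Φ z) := by
  constructor
  · intro h e n hn
    obtain ⟨w, hw⟩ := cl_surj (M.opE e 0)
    have h1 : RepAt f⁻¹ (cl w) (pt M (.att e)) := by
      rw [hw]
      exact attA M e 0
    obtain ⟨k, hk⟩ := (ws_iff h1).2 (inE_nat hn)
    exact h w ⟨_, h1⟩ k hk
  · rintro h w ⟨p, hp⟩ n hn
    obtain ⟨e, he⟩ := att_of (M := M) hB hp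
    rw [eq_pt he] at hp
    obtain ⟨k, hk⟩ := (ws_iff hp).1 ⟨n, hn⟩
    exact h e _ hk

theorem wuC [Nonempty Q] (M : Mk f V E R Q) (hB : Bp V E R) {z : Z} :
    (∀ w, RC f w → ∀ n : ℕ, it f (-n) z ∉ cl w) ↔ ∀ v n, ¬ inV v n (M.Φ z) := by
  constructor
  · intro h e n hn
    obtain ⟨w, hw⟩ := cl_surj (M.opV e 0)
    have h1 : RepAt f (cl w) (pt M (.rep e)) := by
      rw [hw]
      exact repA M e 0
    obtain ⟨k, hk⟩ := (wu_iff h1).2 (inV_nat hn)
    exact h w ⟨_, h1⟩ k hk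
  · rintro h w ⟨p, hp⟩ n hn
    obtain ⟨e, he⟩ := rep_of (M := M) hB hp
    rw [eq_pt he] at hp
    obtain ⟨k, hk⟩ := (wu_iff hp).1 ⟨n, hn⟩
    exact h e _ hk

end Pool.Agent.H642.CQ
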