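import Pool.Agent.H642.CQ.DA
import Pool.Agent.H642.CH.CB

set_option autoImplicit false
set_option linter.unusedSectionVars false

/-! Marked systems are good, part 2. -/

namespace Pool.Agent.H642.CQ

open Set TopologicalSpace
open Pool.Agent.H642.CH (it it_zero it_one it_add it_neg it_neg' it_cont it_inv it_symm
  cpt_mono RepAt Bp)

variable {Z : Type} [TopologicalSpace Z] [CompactSpace Z] [T2Space Z]
  [SecondCountableTopology Z] [TotallyDisconnectedSpace Z]

variable {Q : Type} [TopologicalSpace Q]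

variable {V E : Type} {R : V → E → Prop} {f : Z ≃ₜ Z}

theorem pt_inj {M : Mk f V E R Q} {p q : Pt V E R Q} (h : pt M p = pt M q) : p = q :=
  M.Φ.symm.injective h

/-- the code of a repelling point -/
theorem exists_codeV (M : Mk f V E R Q) (v : V) : ∃ u, PV f u ∧ RepAt f (cl u) (pt M (.rep v)) :=
  exists_pv (repA M v 0)

theorem exists_codeE (M : Mk f V E R Q) (e : E) :
    ∃ w, PV f⁻¹ w ∧ RepAt f⁻¹ (cl w) (pt M (.att e)) :=
  exists_pv (attA M e 0)

theorem pv_of [Nonempty Q] (M : Mk f V E R Q) (hB : Bp V E R) {u : ℕ} (h : RC f u) :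
    ∃ v, RepAt f (cl u) (pt M (.rep v)) := by
  obtain ⟨p, hp⟩ := h
  obtain ⟨v, hv⟩ := rep_of (M := M) hB hp
  rw [eq_pt hv] at hp
  exact ⟨v, hp⟩

theorem pe_of (M : Mk f V E R Q) (hB : Bp V E R) {u : ℕ} (h : RC f⁻¹ u) :
    ∃ e, RepAt f⁻¹ (cl u) (pt M (.att e)) := by
  obtain ⟨p, hp⟩ := h
  obtain ⟨v, hv⟩ := att_of (M := M) hB hp
  rw [eq_pt hv] at hp
  exact ⟨v, hp⟩

/-- in the exit set -/
theorem exit_V {M : Mk f V E R Q} {A : Set Z} {v : V} (h : RepAt f A (pt M (.rep v))) {x : Z}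
    (h1 : x ∉ A) (h2 : it f (-1) x ∈ A) :
    (∃ n : ℕ, inV v n (M.Φ x)) ∧ ∃ n : ℕ, ¬ inV v (-n) (M.Φ x) := by
  refine ⟨(wu_iff h).1 ⟨1, h2⟩, ?_⟩
  by_contra hcon
  push Not at hcon
  apply h1
  have : M.Φ x = .rep v := all_inV fun n => inV_mono (n := -(n.natAbs : ℤ)) (by omega) (hcon _)
  rw [eq_pt this]
  exact h.mem

/-- uniform bounds in the exit set -/
theorem exit_unif {M : Mk f V E R Q} {A : Set Z} {v : V} (h : RepAt f A (pt M (.rep v))) :
    ∃ k : ℕ, ∀ x, x ∉ A → it f (-1) x ∈ A → inV v k (M.Φ x) ∧ ¬ inV v (-k) (M.Φ x) := by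
  have hK : IsClopen {x | x ∉ A ∧ it f (-1) x ∈ A} :=
    h.cl.compl.inter (h.cl.preimage (it_cont f _))
  obtain ⟨k, hk⟩ := cpt_mono (K := {x | x ∉ A ∧ it f (-1) x ∈ A}) hK.isClosed.isCompact
    (O := fun k : ℕ => {x | inV v k (M.Φ x) ∧ ¬ inV v (-k) (M.Φ x)})
    (fun k => ((M.opV v k).inter (M.opV v (-k)).compl).isOpen)
    (fun n m hnm x hx => ⟨inV_mono (by omega) hx.1, fun h1 => hx.2 (inV_mono (by omega) h1)⟩)
    (fun x hx => by
      obtain ⟨⟨n, hn⟩, m, hm⟩ := exit_V h hx.1 hx.2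
      exact ⟨max n m, inV_mono (by simp) hn, fun h1 => hm (inV_mono (by simp) h1)⟩)
  exact ⟨k, fun x h1 h2 => hk x ⟨h1, h2⟩⟩

theorem good_g2 {M : Mk f V E R Q} {A B : Set Z} {v : V} {e : E}
    (h : RepAt f A (pt M (.rep v))) (h' : RepAt f⁻¹ B (pt M (.att e))) :
    ∃ N : ℕ, ∀ x, x ∉ A → it f (-1) x ∈ A → ∀ n : ℕ, it f n x ∈ B → it f N x ∈ B := by
  obtain ⟨k, hk⟩ := exit_unif h
  have hK : IsClopen {x | (x ∉ A ∧ it f (-1) x ∈ A) ∧ inE e (-k) (M.Φ x)} :=
    (h.cl.compl.inter (h.cl.preimage (it_cont f _))).inter (M.opE e (-k))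
  obtain ⟨N, hN⟩ := cpt_mono (K := {x | (x ∉ A ∧ it f (-1) x ∈ A) ∧ inE e (-k) (M.Φ x)})
    hK.isClosed.isCompact
    (O := fun n : ℕ => {x | it f n x ∈ B})
    (fun n => (h'.cl.preimage (it_cont f n)).isOpen)
    (fun n m hnm x hx => by
      have := h'.bwz (a := -m) (b := -n) (by omega) (x := x) (by
        rw [it_inv, neg_neg]
        exact hx)
      rwa [it_inv, neg_neg] at this)
    (fun x hx => (ws_iff h').2 (inE_nat hx.2))
  refine ⟨N, fun x h1 h2 n h3 => hN x ⟨⟨h1, h2⟩, ?_⟩⟩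
  obtain ⟨h4, h5⟩ := hk x h1 h2
  obtain ⟨m, h6⟩ := (ws_iff h').1 ⟨n, h3⟩
  obtain ⟨hr, j, c, h7, h8, h9⟩ := blk_of h4 h6
  rw [h7]
  refine ⟨rfl, ?_⟩
  by_contra hcon
  apply h5
  rw [h7]
  exact ⟨rfl, by omega⟩

theorem good_g3 [Nonempty Q] {M : Mk f V E R Q} (hB : Bp V E R) {A : Set Z} {v : V}
    (h : RepAt f A (pt M (.rep v))) :
    ∃! z, (z ∉ A ∧ it f (-1) z ∈ A) ∧ ∀ w, RC f⁻¹ w → ∀ n : ℕ, it f n z ∉ cl w := by
  classical
  have hmono : ∀ n m : ℤ, n ≤ m → pt M (.wan v m) ∈ A → pt M (.wan v n) ∈ A := by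
    intro n m hnm hm
    have := h.bwz (a := n - m) (b := 0) (by omega) (x := pt M (.wan v m)) (by rwa [it_zero])
    rw [it_pt] at this
    convert this using 2
    show _ = Pt.wan v _
    congr 1
    ring
  have hex : ∃ n : ℤ, pt M (.wan v n) ∈ A := by
    obtain ⟨n, hn⟩ := (wu_iff h (x := pt M (.wan v 0))).2 ⟨1, by rw [Φ_pt]; exact ⟨rfl, by omega⟩⟩
    rw [it_pt] at hn
    exact ⟨_, hn⟩
  have hnall : ∃ n : ℤ, pt M (.wan v n) ∉ A := by
    by_contra hcon
    push Not at hcon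
    have := (h.pt (pt M (.wan v 0))).1 (fun n => by
      rw [it_pt]
      exact hcon _)
    exact absurd (pt_inj this) (by simp)
  obtain ⟨n0, hn0⟩ := hex
  obtain ⟨n1, hn1⟩ := hnall
  have hlt : n0 < n1 := by
    by_contra hcon
    exact hn1 (hmono _ _ (by omega) hn0)
  -- least element outside
  obtain ⟨m, hm, hmin⟩ := Int.exists_least_of_bdd (P := fun n => pt M (.wan v n) ∉ A)
    ⟨n0, fun z hz => by
      by_contra hcon
      exact hz (hmono _ _ (by omega) hn0)⟩ ⟨n1, hn1⟩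
  have hm' : pt M (.wan v (m - 1)) ∈ A := by
    by_contra hcon
    have := hmin _ hcon
    omega
  have hit : it f (-1) (pt M (.wan v m)) = pt M (.wan v (m - 1)) := by
    rw [it_pt]
    rfl
  refine ⟨pt M (.wan v m), ⟨⟨hm, by rw [hit]; exact hm'⟩, (wsC M hB).2 fun e n h1 => ?_⟩, ?_⟩
  · rw [Φ_pt] at h1
    exact h1
  · rintro z ⟨⟨h1, h2⟩, h3⟩
    rw [wsC M hB] at h3
    obtain ⟨⟨n, h4⟩, k, h5⟩ := exit_V h h1 h2
    rcases hp : M.Φ z with _ | v' | e | ⟨v', j⟩ | ⟨v', e, hr, j, c⟩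
    · rw [hp] at h4
      exact h4.elim
    · rw [hp] at h4 h5
      exact (h5 h4).elim
    · rw [hp] at h4
      exact h4.elim
    · rw [hp] at h4
      obtain ⟨rfl, -⟩ := h4
      have e1 := eq_pt hp
      subst e1
      rw [it_pt] at h2
      have h6 : pt M (.wan v' (j - 1)) ∈ A := h2
      have h7 := hmin j h1
      have h8 : j = m := by
        by_contra hne
        exact hm (hmono m (j - 1) (by omega) h6)
      rw [h8]
    · rw [hp] at h3
      exact (h3 e j ⟨rfl, le_refl _⟩).elim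

/-- the exit sets are homeomorphic to the blocks -/
theorem blk_homeo [CompactSpace Q] [T2Space Q] [TotallyDisconnectedSpace Q]
    {M : Mk f V E R Q} {A B : Set Z} {v : V} {e : E} (hr : R v e)
    (h : RepAt f A (pt M (.rep v))) (h' : RepAt f⁻¹ B (pt M (.att e))) {N : ℕ}
    (hN : ∀ x, x ∉ A → it f (-1) x ∈ A → ∀ n : ℕ, it f n x ∈ B → it f N x ∈ B) :
    Nonempty ({x | (x ∉ A ∧ it f (-1) x ∈ A) ∧ it f N x ∈ B} ≃ₜ Q) := by
  have hC : IsClopen {x | (x ∉ A ∧ it f (-1) x ∈ A) ∧ it f N x ∈ B} :=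
    (h.cl.compl.inter (h.cl.preimage (it_cont f _))).inter (h'.cl.preimage (it_cont f _))
  have hcs : CompactSpace {x | (x ∉ A ∧ it f (-1) x ∈ A) ∧ it f N x ∈ B} :=
    isCompact_iff_compactSpace.1 hC.isClosed.isCompact
  have h1 : ∀ x : {x | (x ∉ A ∧ it f (-1) x ∈ A) ∧ it f N x ∈ B}, ∃ (c : Q) (n : ℤ),
      M.Φ x.1 = .blk v e hr n c := by
    rintro ⟨x, ⟨h1, h2⟩, h3⟩
    obtain ⟨⟨n, h4⟩, -⟩ := exit_V h h1 h2
    obtain ⟨m, h5⟩ := (ws_iff h').1 ⟨N, h3⟩
    obtain ⟨hr, k, c, h6, -⟩ := blk_of h4 h5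
    exact ⟨c, k, h6⟩
  choose γ n hγ using h1
  have hone : ∀ (x y : Z) (k l : ℤ) (c : Q), (x ∉ A ∧ it f (-1) x ∈ A) →
      (y ∉ A ∧ it f (-1) y ∈ A) → M.Φ x = .blk v e hr k c → M.Φ y = .blk v e hr l c →
      ¬ l < k := by
    intro x y k l c hx hy h1 h2 hlt
    have h3 : y = it f (l - k) x := by
      apply M.Φ.injective
      rw [M.eq', h1, h2]
      show _ = Pt.blk v e hr _ c
      congr 1
      ring
    apply hy.1
    rw [h3]
    exact h.bwz (b := -1) (by omega) hx.2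
  have hinj : Function.Injective γ := by
    intro x y hxy
    have h2 := hγ x
    have h3 := hγ y
    rw [← hxy] at h3
    have h4 : n x = n y := by
      rcases lt_trichotomy (n x) (n y) with h5 | h5 | h5
      · exact (hone _ _ _ _ _ y.2.1 x.2.1 h3 h2 h5).elim
      · exact h5
      · exact (hone _ _ _ _ _ x.2.1 y.2.1 h2 h3 h5).elim
    apply Subtype.ext
    apply M.Φ.injective
    rw [h2, h3, h4]
  have hsurj : Function.Surjective γ := by
    intro c
    have h2 : it f 0 (pt M (.blk v e hr 0 c)) ∈ aV M v 1 := by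
      rw [it_zero]
      show inV v 1 (M.Φ _)
      rw [Φ_pt]
      exact ⟨rfl, by omega⟩
    obtain ⟨a, ha⟩ := (repA M v 1).wu h h2
    have hne : pt M (.blk v e hr 0 c) ≠ pt M (.rep v) := fun h => by
      have := pt_inj h
      cases this
    obtain ⟨k, h3, h4⟩ := h.exit (ha a le_rfl) hne
    obtain ⟨m, h5⟩ := (ws_iff h' (x := it f k (pt M (.blk v e hr 0 c)))).2 ⟨k.natAbs, by
      rw [it_pt, Φ_pt]
      refine ⟨rfl, ?_⟩
      omega⟩
    refine ⟨⟨it f k (pt M (.blk v e hr 0 c)), ⟨h3, h4⟩, hN _ h3 h4 m h5⟩, ?_⟩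
    have h6 := hγ ⟨it f k (pt M (.blk v e hr 0 c)), ⟨h3, h4⟩, hN _ h3 h4 m h5⟩
    have h7 : M.Φ (it f k (pt M (.blk v e hr 0 c))) = .blk v e hr (0 + k) c := by
      rw [it_pt, Φ_pt]
      rfl
    have h8 := h7.symm.trans h6
    exact (Pt.blk.inj h8).2.2.2.symm
  have hcont : Continuous γ := by
    rw [(loc_compact_Haus_tot_disc_of_zero_dim (H := Q)).continuous_iff]
    intro S hS
    have h2 : γ ⁻¹' S = Subtype.val ⁻¹' (⋃ k : ℤ, {x | inC v e k S (M.Φ x)}) := by
      ext x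
      rw [mem_preimage, mem_preimage, mem_iUnion]
      constructor
      · intro h3
        refine ⟨n x, ?_⟩
        show inC v e (n x) S (M.Φ x.1)
        rw [hγ x]
        exact ⟨rfl, rfl, rfl, h3⟩
      · rintro ⟨k, hk⟩
        have h3 : inC v e k S (M.Φ x.1) := hk
        rw [hγ x] at h3
        exact h3.2.2.2
    rw [h2]
    exact (isOpen_iUnion fun k => (M.opC v e k hS).isOpen).preimage continuous_subtype_val
  exact ⟨Continuous.homeoOfEquivCompactToT2 (f := Equiv.ofBijective γ ⟨hinj, hsurj⟩) hcont⟩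

theorem good_of_mk [Nonempty Q] [CompactSpace Q] [T2Space Q] [TotallyDisconnectedSpace Q]
    (M : Mk f V E R Q) (hB : Bp V E R) : Good Q f where
  g0 := by
    intro u w hu hw
    obtain ⟨v, hv⟩ := pv_of M hB hu
    obtain ⟨e, he⟩ := pe_of M hB hw
    have h1 : pt M (.rep v) ∉ cl w := by
      intro h1
      have h2 := he.fixed h1 (by rw [it_inv, it_pt]; rfl)
      exact absurd (pt_inj h2) (by simp)
    obtain ⟨N, hN⟩ := hv.shrink (cl_clopen w).compl.isOpen h1
    refine ⟨N, fun x hx hxw => ?_⟩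
    have := hN _ hx N (le_refl _)
    rw [it_neg] at this
    exact this hxw
  g1 := by
    have := hB.inf
    choose c hc using exists_codeV M
    have hinj : Function.Injective c := by
      intro v v' h
      have h1 := (hc v).2
      rw [h] at h1
      have h2 := h1.uniq (hc v').2
      exact Pt.rep.inj (pt_inj h2)
    intro N
    by_contra hcon
    push Not at hcon
    have h3 : (range c).Infinite := infinite_range_of_injective hinj
    refine h3 ((Set.finite_lt_nat N).subset ?_)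
    rintro _ ⟨v, rfl⟩
    by_contra h4
    exact hcon (c v) (by simpa using h4) (hc v).1
  g2 := by
    intro u w hu hw
    obtain ⟨v, hv⟩ := pv_of M hB hu
    obtain ⟨e, he⟩ := pe_of M hB hw
    exact good_g2 hv he
  g3 := by
    intro u hu
    obtain ⟨v, hv⟩ := pv_of M hB hu
    exact good_g3 hB hv
  g4 := by
    refine ⟨pt M .inf, ⟨(wuC M hB).2 fun v n h => ?_, (wsC M hB).2 fun v n h => ?_⟩, ?_⟩
    · rw [Φ_pt] at h
      exact h
    · rw [Φ_pt] at h
      exact h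
    · rintro z ⟨h1, h2⟩
      rw [wuC M hB] at h1
      rw [wsC M hB] at h2
      apply eq_pt
      rcases hp : M.Φ z with _ | v | e | ⟨v, j⟩ | ⟨v, e, hr, j, c⟩
      · rfl
      · rw [hp] at h1
        exact (h1 v 0 rfl).elim
      · rw [hp] at h2
        exact (h2 e 0 rfl).elim
      · rw [hp] at h1
        exact (h1 v (j + 1) ⟨rfl, by omega⟩).elim
      · rw [hp] at h1
        exact (h1 v (j + 1) ⟨rfl, by omega⟩).elim
  g5 := by
    intro w hw
    obtain ⟨e, he⟩ := pe_of M hB hw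
    obtain ⟨v1, v2, h12⟩ := hB.two e
    obtain ⟨u1, -, hu1⟩ := exists_codeV M v1
    obtain ⟨u2, -, hu2⟩ := exists_codeV M v2
    refine ⟨u1, u2, ⟨_, hu1⟩, ⟨_, hu2⟩, ?_⟩
    have hK : IsClopen {x | x ∈ cl w ∧ it f (-1) x ∉ cl w} :=
      (cl_clopen w).inter ((cl_clopen w).compl.preimage (it_cont f _))
    have hcl : ∀ N : ℤ, IsOpen {x | it f N x ∈ cl u1 ∨ it f N x ∈ cl u2} := fun N =>
      ((hu1.cl.preimage (it_cont f N)).union (hu2.cl.preimage (it_cont f N))).isOpen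
    obtain ⟨N, hN⟩ := cpt_mono (K := {x | x ∈ cl w ∧ it f (-1) x ∉ cl w})
      hK.isClosed.isCompact
      (O := fun N : ℕ => {x | it f (-N) x ∈ cl u1 ∨ it f (-N) x ∈ cl u2})
      (fun N => hcl (-N))
      (fun n m hnm x hx => by
        rcases hx with hx | hx
        · exact Or.inl (hu1.bwz (by omega) hx)
        · exact Or.inr (hu2.bwz (by omega) hx))
      (fun x hx => by
        obtain ⟨n, hn⟩ := (ws_iff he).1 ⟨0, by simpa [it_zero] using hx.1⟩
        rcases hp : M.Φ x with _ | v | e' | ⟨v, j⟩ | ⟨v, e', hr, j, c⟩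
        · rw [hp] at hn
          exact hn.elim
        · rw [hp] at hn
          exact hn.elim
        · rw [hp] at hn
          have h1 : e' = e := hn
          subst h1
          exfalso
          apply hx.2
          rw [eq_pt hp, it_pt]
          exact he.mem
        · rw [hp] at hn
          exact hn.elim
        · rw [hp] at hn
          obtain ⟨rfl, -⟩ := hn
          rcases h12 v hr with rfl | rfl
          · obtain ⟨m, hm⟩ := (wu_iff hu1 (x := x)).2 (inV_nat (n := j + 1) (by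
              rw [hp]
              exact ⟨rfl, by omega⟩))
            exact ⟨m, Or.inl hm⟩
          · obtain ⟨m, hm⟩ := (wu_iff hu2 (x := x)).2 (inV_nat (n := j + 1) (by
              rw [hp]
              exact ⟨rfl, by omega⟩))
            exact ⟨m, Or.inr hm⟩)
    exact ⟨N, fun x h1 h2 => hN x ⟨h1, h2⟩⟩
  g6 := by
    intro u v w w' hu hv huv hw hw' m1 m2 m3 m4
    obtain ⟨a, ha⟩ := pv_of M hB hu.1
    obtain ⟨b, hb⟩ := pv_of M hB hv.1
    obtain ⟨e, he⟩ := pe_of M hB hw.1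
    obtain ⟨e', he'⟩ := pe_of M hB hw'.1
    have hab : a ≠ b := by
      rintro rfl
      exact huv (pv_uniq hu hv ha hb)
    have h1 := hB.uni a b e e' hab ((me_iff ha he).1 m1) ((me_iff hb he).1 m2)
      ((me_iff ha he').1 m3) ((me_iff hb he').1 m4)
    subst h1
    exact pv_uniq hw hw' he he'
  g7 := by
    intro u hu N
    obtain ⟨a, ha⟩ := pv_of M hB hu.1
    choose c hc using exists_codeE M
    have hinj : Function.Injective c := by
      intro v v' h
      have h1 := (hc v).2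
      rw [h] at h1
      have h2 := h1.uniq (hc v').2
      exact Pt.att.inj (pt_inj h2)
    have h3 : (c '' {e | R a e ∧ ∀ v', R v' e → v' = a}).Infinite :=
      (hB.pend a).image hinj.injOn
    obtain ⟨w, ⟨e, ⟨he1, he2⟩, rfl⟩, hw⟩ := h3.exists_gt N
    refine ⟨c e, hw.le, (hc e).1, (me_iff ha (hc e).2).2 he1, fun v hv hm => ?_⟩
    obtain ⟨b, hb⟩ := pv_of M hB hv.1
    have h4 := he2 b ((me_iff hb (hc e).2).1 hm)
    subst h4
    exact pv_uniq hv hu hb ha
  g8 := by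
    intro w hw
    obtain ⟨e, he⟩ := pe_of M hB hw
    obtain ⟨v, hv⟩ := hB.ne e
    obtain ⟨u, hu, hu'⟩ := exists_codeV M v
    exact ⟨u, hu, (me_iff hu' he).2 hv⟩
  g9 := by
    intro u w hu hw hm
    obtain ⟨v, hv⟩ := pv_of M hB hu
    obtain ⟨e, he⟩ := pe_of M hB hw
    obtain ⟨N, hN⟩ := good_g2 hv he
    refine ⟨N, hN, ?_⟩
    have hC : IsClopen {x | (x ∉ cl u ∧ it f (-1) x ∈ cl u) ∧ it f N x ∈ cl w} :=
      ((cl_clopen u).compl.inter ((cl_clopen u).preimage (it_cont f _))).inter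
        ((cl_clopen w).preimage (it_cont f _))
    obtain ⟨m, hm'⟩ := cl_surj hC
    refine ⟨m, ?_, fun x => by rw [hm']; rfl⟩
    rw [hm']
    exact blk_homeo ((me_iff hv he).1 hm) hv he hN

/-- the graph of codes of a marked system -/
theorem graph_of_mk [Nonempty Q] (M : Mk f V E R Q) (hB : Bp V E R) : ∃ θ : V ≃ {u // PV f u},
    ∀ v v', Ad f (θ v) (θ v') ↔ (v ≠ v' ∧ ∃ e, R v e ∧ R v' e) := by
  choose c hc using exists_codeV M
  have hinj : Function.Injective c := by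
    intro v v' h
    have h1 := (hc v).2
    rw [h] at h1
    have h2 := h1.uniq (hc v').2
    exact Pt.rep.inj (pt_inj h2)
  have hbij : Function.Bijective (fun v => (⟨c v, (hc v).1⟩ : {u // PV f u})) := by
    constructor
    · intro v v' h
      exact hinj (congrArg Subtype.val h)
    · rintro ⟨u, hu⟩
      obtain ⟨v, hv⟩ := pv_of M hB hu.1
      exact ⟨v, Subtype.ext (pv_uniq (hc v).1 hu (hc v).2 hv)⟩
  refine ⟨Equiv.ofBijective _ hbij, fun v v' => ?_⟩
  show Ad f (c v) (c v') ↔ _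
  unfold Ad
  rw [hinj.ne_iff]
  refine and_congr Iff.rfl ⟨?_, ?_⟩
  · rintro ⟨w, hw, h1, h2⟩
    obtain ⟨e, he⟩ := pe_of M hB hw.1
    exact ⟨e, (me_iff (hc v).2 he).1 h1, (me_iff (hc v').2 he).1 h2⟩
  · rintro ⟨e, h1, h2⟩
    obtain ⟨w, hw, he⟩ := exists_codeE M e
    exact ⟨w, hw, (me_iff (hc v).2 he).2 h1, (me_iff (hc v').2 he).2 h2⟩

end Pool.Agent.H642.CQ
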