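import Pool.Agent.H642.CQ.EX
import Pool.Agent.H642.KK.Stm

set_option autoImplicit false
set_option linter.unusedSectionVars false

/-! The topological type of the model is the type of the blocks. -/

namespace Pool.Agent.H642.CQ

open Set Filter Topology
open Pool.Agent.H642.CH (Bp)
open Pool.Agent.H642.CK (Io)
open Pool.Agent.H642.KK (L2 NT NT2)

attribute [local instance] tp

variable {Q : Type} [TopologicalSpace Q] [CompactSpace Q] [T2Space Q]
  [SecondCountableTopology Q] [TotallyDisconnectedSpace Q]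

variable {V E : Type} {R : V → E → Prop}

theorem emb : IsEmbedding (cd : Pt V E R Q → Co V E Q → Bool) :=
  ⟨⟨rfl⟩, cd_inj⟩

theorem model_t2 : T2Space (Pt V E R Q) := emb.t2Space

theorem model_td : TotallyDisconnectedSpace (Pt V E R Q) :=
  emb.isTotallyDisconnected_range.1 (isTotallyDisconnected_of_totallyDisconnectedSpace _)

theorem clopens_countable : Countable {S : Set Q // IsClopen S} := by
  have h1 : Countable (TopologicalSpace.Clopens Q) :=
    (TopologicalSpace.Clopens.countable_iff_secondCountable).2 inferInstance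
  exact Function.Injective.countable (f := fun S : {S : Set Q // IsClopen S} =>
    (⟨S.1, S.2⟩ : TopologicalSpace.Clopens Q)) fun a b h => Subtype.ext
      (congrArg (fun S : TopologicalSpace.Clopens Q => (S : Set Q)) h)

theorem model_sc [Countable V] [Countable E] : SecondCountableTopology (Pt V E R Q) := by
  have := clopens_countable (Q := Q)
  have : Countable (Co V E Q) := inferInstance
  exact emb.secondCountableTopology

/-- the inclusion of a block -/
def ib (v : V) (e : E) (h : R v e) (n : ℤ) (c : Q) : Pt V E R Q := .blk v e h n c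

theorem ib_inj (v : V) (e : E) (h : R v e) (n : ℤ) : Function.Injective (ib (Q := Q) v e h n) :=
  fun _ _ h1 => (Pt.blk.inj h1).2.2.2

theorem clopen_const (p : Prop) : IsClopen {_c : Q | p} := by
  by_cases h : p
  · have : {_c : Q | p} = univ := by
      ext c
      exact ⟨fun _ => mem_univ _, fun _ => h⟩
    rw [this]
    exact isClopen_univ
  · have : {_c : Q | p} = ∅ := by
      ext c
      exact ⟨fun h1 => h h1, fun h1 => h1.elim⟩
    rw [this]
    exact isClopen_empty

theorem ib_cont (v : V) (e : E) (h : R v e) (n : ℤ) : Continuous (ib (Q := Q) v e h n) := by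
  classical
  refine continuous_induced_rng.2 (continuous_pi fun s => ?_)
  refine (continuous_bool_rng true).2 ?_
  rcases s with ⟨v', m⟩ | ⟨e', m⟩ | ⟨⟨v', e'⟩, ⟨m, S, hS⟩⟩
  · have : (fun c : Q => (cd ∘ ib v e h n) c (.inl (v', m))) ⁻¹' {true} =
        {c : Q | v = v' ∧ n < m} := by
      ext c
      exact cd_iff
    rw [this]
    exact (clopen_const _)
  · have : (fun c : Q => (cd ∘ ib v e h n) c (.inr (.inl (e', m)))) ⁻¹' {true} =
        {c : Q | e = e' ∧ m ≤ n} := by
      ext c
      exact cd_iff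
    rw [this]
    exact (clopen_const _)
  · have : (fun c : Q => (cd ∘ ib v e h n) c (.inr (.inr ((v', e'), (m, ⟨S, hS⟩))))) ⁻¹' {true} =
        {c : Q | v = v' ∧ e = e' ∧ n = m} ∩ S := by
      ext c
      refine cd_iff.trans ?_
      show (v = v' ∧ e = e' ∧ n = m ∧ c ∈ S) ↔ (v = v' ∧ e = e' ∧ n = m) ∧ c ∈ S
      tauto
    rw [this]
    exact (clopen_const _).inter hS

theorem ib_open (v : V) (e : E) (h : R v e) (n : ℤ) : IsOpenMap (ib (Q := Q) v e h n) := by
  rw [(loc_compact_Haus_tot_disc_of_zero_dim (H := Q)).isOpenMap_iff]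
  intro S hS
  have : ib (Q := Q) v e h n '' S = {p : Pt V E R Q | cp p (.inr (.inr ((v, e), (n, ⟨S, hS⟩))))} := by
    ext p
    constructor
    · rintro ⟨c, hc, rfl⟩
      exact ⟨rfl, rfl, rfl, hc⟩
    · intro hp
      cases p with
      | inf => exact hp.elim
      | rep _ => exact hp.elim
      | att _ => exact hp.elim
      | wan _ _ => exact hp.elim
      | blk v' e' h' m c =>
        obtain ⟨rfl, rfl, rfl, h4⟩ := hp
        exact ⟨c, h4, rfl⟩
  rw [this]
  exact (cp_clopen _).isOpen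

theorem ib_io {v : V} {e : E} {h : R v e} {n : ℤ} {c : Q} : Io (ib v e h n c) ↔ Io c := by
  constructor
  · intro h1
    have h2 : {c} = ib (Q := Q) v e h n ⁻¹' {ib v e h n c} := by
      ext d
      exact ⟨fun h3 => congrArg _ h3, fun h3 => ib_inj v e h n h3⟩
    show IsOpen {c}
    rw [h2]
    exact h1.preimage (ib_cont v e h n)
  · intro h1
    have h2 := ib_open v e h n _ h1
    rwa [image_singleton] at h2

theorem ib_l2 {v : V} {e : E} {h : R v e} {n : ℤ} {c : Q} :
    ib v e h n c ∈ L2 (Pt V E R Q) ↔ c ∈ L2 Q := by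
  constructor
  · intro h1 U hU hc
    obtain ⟨y, ⟨d, hd, rfl⟩, h3, h4⟩ := h1 _ (ib_open v e h n U hU) ⟨c, hc, rfl⟩
    exact ⟨d, hd, fun h5 => h3 (by rw [h5]), fun h5 => h4 (ib_io.2 h5)⟩
  · intro h1 U hU hc
    obtain ⟨d, hd, h3, h4⟩ := h1 _ (hU.preimage (ib_cont v e h n)) hc
    exact ⟨_, hd, fun h5 => h3 (ib_inj v e h n h5), fun h5 => h4 (ib_io.1 h5)⟩

/-- blocks which converge to a point -/
theorem block_in {p : Pt V E R Q} (b : ℕ → Q → Pt V E R Q)
    (hb : ∀ s, ∀ᶠ k in atTop, ∀ c, (cp (b k c) s ↔ cp p s)) {U : Set (Pt V E R Q)}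
    (hU : IsOpen U) (hp : p ∈ U) : ∃ k, ∀ c, b k c ∈ U := by
  by_contra hcon
  push Not at hcon
  choose c hc using hcon
  have h3 : Tendsto (fun k => b k (c k)) atTop (𝓝 p) :=
    conv_iff fun s => (hb s).mono fun k hk => hk (c k)
  obtain ⟨k, hk⟩ := (h3.eventually (hU.mem_nhds hp)).exists
  exact hc k hk

/-- the points which are not in blocks -/
def Rm (p : Pt V E R Q) : Prop := ∀ v e h n c, p ≠ .blk v e h n c

theorem rm_block (hB : Bp V E R) {p : Pt V E R Q} (hr : Rm p) {U : Set (Pt V E R Q)}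
    (hU : IsOpen U) (hp : p ∈ U) : ∃ v e h n, ∀ c : Q, ib v e h n c ∈ U := by
  cases p with
  | inf =>
    have := hB.inf
    let v := Infinite.natEmbedding V
    have h1 : ∀ k, ∃ e, R (v k) e ∧ ∀ v', R v' e → v' = v k := fun k => (hB.pend (v k)).nonempty
    choose e he1 he2 using h1
    have hinj : Function.Injective e := by
      intro j k hjk
      have h2 := he2 k (v j) (hjk ▸ he1 j)
      exact v.injective h2
    obtain ⟨k, hk⟩ := block_in (p := .inf) (fun k c => .blk (v k) (e k) (he1 k) 0 c)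
      (fun s => by
        rcases s with ⟨v', n⟩ | ⟨e', n⟩ | ⟨⟨v', e'⟩, ⟨n, i⟩⟩
        · by_cases h : ∃ k, v k = v'
          · obtain ⟨k, hk⟩ := h
            filter_upwards [eventually_gt_atTop k] with j hj c
            refine ⟨fun h1 => ?_, fun h1 => h1.elim⟩
            have h2 : v j = v k := h1.1.trans hk.symm
            have h3 := v.injective h2
            omega
          · exact Eventually.of_forall fun j c => ⟨fun h1 => h ⟨j, h1.1⟩, fun h1 => h1.elim⟩
        · by_cases h : ∃ k, e k = e'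
          · obtain ⟨k, hk⟩ := h
            filter_upwards [eventually_gt_atTop k] with j hj c
            refine ⟨fun h1 => ?_, fun h1 => h1.elim⟩
            have h2 : e j = e k := h1.1.trans hk.symm
            have h3 := hinj h2
            omega
          · exact Eventually.of_forall fun j c => ⟨fun h1 => h ⟨j, h1.1⟩, fun h1 => h1.elim⟩
        · by_cases h : ∃ k, v k = v'
          · obtain ⟨k, hk⟩ := h
            filter_upwards [eventually_gt_atTop k] with j hj c
            refine ⟨fun h1 => ?_, fun h1 => h1.elim⟩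
            have h2 : v j = v k := h1.1.trans hk.symm
            have h3 := v.injective h2
            omega
          · exact Eventually.of_forall fun j c => ⟨fun h1 => h ⟨j, h1.1⟩, fun h1 => h1.elim⟩)
      hU hp
    exact ⟨_, _, he1 k, 0, hk⟩
  | rep v =>
    obtain ⟨e, he, -⟩ := (hB.pend v).nonempty
    obtain ⟨k, hk⟩ := block_in (p := .rep v) (fun k c => .blk v e he (-(k : ℤ)) c)
      (fun s => by
        rcases s with ⟨v', n⟩ | ⟨e', n⟩ | ⟨⟨v', e'⟩, ⟨n, i⟩⟩
        · filter_upwards [eventually_gt_atTop n.natAbs] with j hj c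
          refine ⟨fun h1 => h1.1, fun h1 => ⟨h1, ?_⟩⟩
          omega
        · filter_upwards [eventually_gt_atTop n.natAbs] with j hj c
          refine ⟨fun h1 => ?_, fun h1 => h1.elim⟩
          have := h1.2
          omega
        · filter_upwards [eventually_gt_atTop n.natAbs] with j hj c
          refine ⟨fun h1 => ?_, fun h1 => h1.elim⟩
          have := h1.2.2.1
          omega)
      hU hp
    exact ⟨_, _, he, _, hk⟩
  | att e =>
    obtain ⟨v, hv⟩ := hB.ne e
    obtain ⟨k, hk⟩ := block_in (p := .att e) (fun k c => .blk v e hv (k : ℤ) c)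
      (fun s => by
        rcases s with ⟨v', n⟩ | ⟨e', n⟩ | ⟨⟨v', e'⟩, ⟨n, i⟩⟩
        · filter_upwards [eventually_gt_atTop n.natAbs] with j hj c
          refine ⟨fun h1 => ?_, fun h1 => h1.elim⟩
          have := h1.2
          omega
        · filter_upwards [eventually_gt_atTop n.natAbs] with j hj c
          refine ⟨fun h1 => h1.1, fun h1 => ⟨h1, ?_⟩⟩
          omega
        · filter_upwards [eventually_gt_atTop n.natAbs] with j hj c
          refine ⟨fun h1 => ?_, fun h1 => h1.elim⟩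
          have := h1.2.2.1
          omega)
      hU hp
    exact ⟨_, _, hv, _, hk⟩
  | wan v n =>
    have hinf := (hB.pend v).to_subtype
    let e := Infinite.natEmbedding {e | R v e ∧ ∀ v', R v' e → v' = v}
    obtain ⟨k, hk⟩ := block_in (p := .wan v n) (fun k c => .blk v (e k).1 (e k).2.1 n c)
      (fun s => by
        rcases s with ⟨v', m⟩ | ⟨e', m⟩ | ⟨⟨v', e'⟩, ⟨m, i⟩⟩
        · exact Eventually.of_forall fun j c => Iff.rfl
        · by_cases h : ∃ k, (e k).1 = e'
          · obtain ⟨k, hk⟩ := h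
            filter_upwards [eventually_gt_atTop k] with j hj c
            refine ⟨fun h1 => ?_, fun h1 => h1.elim⟩
            have h2 : e j = e k := Subtype.ext (h1.1.trans hk.symm)
            have h3 := e.injective h2
            omega
          · exact Eventually.of_forall fun j c => ⟨fun h1 => h ⟨j, h1.1⟩, fun h1 => h1.elim⟩
        · by_cases h : ∃ k, (e k).1 = e'
          · obtain ⟨k, hk⟩ := h
            filter_upwards [eventually_gt_atTop k] with j hj c
            refine ⟨fun h1 => ?_, fun h1 => h1.elim⟩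
            have h2 : e j = e k := Subtype.ext (h1.2.1.trans hk.symm)
            have h3 := e.injective h2
            omega
          · exact Eventually.of_forall fun j c => ⟨fun h1 => h ⟨j, h1.2.1⟩, fun h1 => h1.elim⟩)
      hU hp
    exact ⟨_, _, (e k).2.1, _, hk⟩
  | blk v e h n c => exact (hr v e h n c rfl).elim

theorem rm_or (p : Pt V E R Q) : Rm p ∨ ∃ v e h n c, p = ib v e h n c := by
  by_cases h : Rm p
  · exact Or.inl h
  · unfold Rm at h
    push Not at h
    exact Or.inr h

theorem rm_ne {p : Pt V E R Q} (hr : Rm p) (v : V) (e : E) (h : R v e) (n : ℤ) (c : Q) :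
    ib v e h n c ≠ p := fun h1 => hr v e h n c h1.symm

theorem rm_not_io [Nonempty Q] (hB : Bp V E R) {p : Pt V E R Q} (hr : Rm p) : ¬ Io p := by
  intro h1
  obtain ⟨v, e, h, n, h2⟩ := rm_block hB hr h1 rfl
  obtain ⟨c⟩ := ‹Nonempty Q›
  exact rm_ne hr v e h n c (h2 c)

theorem rm_l2 (hB : Bp V E R) (hQ : ∃ c : Q, ¬ Io c) {p : Pt V E R Q} (hr : Rm p) :
    p ∈ L2 (Pt V E R Q) := by
  intro U hU hp
  obtain ⟨v, e, h, n, h2⟩ := rm_block hB hr hU hp
  obtain ⟨c, hc⟩ := hQ
  exact ⟨_, h2 c, rm_ne hr v e h n c, fun h3 => hc (ib_io.1 h3)⟩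

theorem ty0 [Nonempty Q] (hB : Bp V E R) (hQ : ∀ c : Q, ¬ Io c) (p : Pt V E R Q) : ¬ Io p := by
  rcases rm_or p with h | ⟨v, e, h, n, c, rfl⟩
  · exact rm_not_io hB h
  · exact fun h1 => hQ c (ib_io.1 h1)

theorem ty1 (hB : Bp V E R) (hQ : NT Q) : NT (Pt V E R Q) where
  dense := by
    rintro U hU ⟨p, hp⟩
    rcases rm_or p with h | ⟨v, e, h, n, c, rfl⟩
    · obtain ⟨v, e, h, n, h2⟩ := rm_block hB h hU hp
      obtain ⟨c, -, hc⟩ := hQ.dense univ isOpen_univ ⟨hQ.ne.choose, mem_univ _⟩
      exact ⟨_, h2 c, ib_io.2 hc⟩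
    · obtain ⟨d, hd, hd'⟩ := hQ.dense _ (hU.preimage (ib_cont v e h n)) ⟨c, hp⟩
      exact ⟨_, hd, ib_io.2 hd'⟩
  perf := by
    intro p hp
    rcases rm_or p with h | ⟨v, e, h, n, c, rfl⟩
    · exact rm_l2 hB hQ.ne h
    · exact ib_l2.2 (hQ.perf c fun h1 => hp (ib_io.2 h1))
  ne := by
    have : Nonempty Q := ⟨hQ.ne.choose⟩
    exact ⟨.inf, rm_not_io hB fun v e h n c h1 => by cases h1⟩

theorem l2_not_io {c : Q} (h : c ∈ L2 Q) : ¬ Io c := by
  intro h1
  obtain ⟨y, hy, h2, -⟩ := h _ h1 rfl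
  exact h2 hy

theorem ty2 (hB : Bp V E R) (hQ : NT2 Q) : NT2 (Pt V E R Q) where
  r1 := by
    intro p hp U hU hpU
    rcases rm_or p with h | ⟨v, e, h, n, c, rfl⟩
    · obtain ⟨v, e, h, n, h2⟩ := rm_block hB h hU hpU
      obtain ⟨c, hc⟩ := hQ.ne
      obtain ⟨d, -, h3, h4⟩ := hQ.r1 c hc univ isOpen_univ (mem_univ _)
      exact ⟨_, h2 d, fun h5 => h3 (ib_io.1 h5), fun h5 => h4 (ib_l2.1 h5)⟩
    · obtain ⟨d, h2, h3, h4⟩ := hQ.r1 c (ib_l2.1 hp) _ (hU.preimage (ib_cont v e h n)) hpU
      exact ⟨_, h2, fun h5 => h3 (ib_io.1 h5), fun h5 => h4 (ib_l2.1 h5)⟩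
  perf := by
    intro p hp U hU hpU
    rcases rm_or p with h | ⟨v, e, h, n, c, rfl⟩
    · obtain ⟨v, e, h', n, h2⟩ := rm_block hB h hU hpU
      obtain ⟨c, hc⟩ := hQ.ne
      exact ⟨_, h2 c, rm_ne h v e h' n c, ib_l2.2 hc⟩
    · obtain ⟨d, h2, h3, h4⟩ := hQ.perf c (ib_l2.1 hp) _ (hU.preimage (ib_cont v e h n)) hpU
      exact ⟨_, h2, fun h5 => h3 (ib_inj v e h n h5), ib_l2.2 h4⟩
  ne := by
    obtain ⟨c, hc⟩ := hQ.ne
    exact ⟨.inf, rm_l2 hB ⟨c, l2_not_io hc⟩ fun v e h n c h1 => by cases h1⟩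

end Pool.Agent.H642.CQ
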