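import Pool.Agent.H642.CQ.ME
import Pool.Agent.H642.CQ.EY
import Pool.Agent.H642.CH.BE
import Pool.Agent.H642.CH.FN
import Pool.Agent.H155.KK.STB

set_option autoImplicit false
set_option linter.unusedSectionVars false

/-! Faithful completeness of conjugacy for the stable spaces. -/

namespace Pool.Agent.H642.CQ

open Set Filter Topology
open Pool.Agent.H642.CH (it it_zero it_one it_add it_neg it_neg' it_cont it_inv it_symm
  cpt_mono RepAt Bp extend EE RR bp_graph adj_graph)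
open Pool.Agent.W889.VC (BP Faithful BIso BinStr IsGraph Bip target_Bip)
open Pool.Agent.W889.SD (dc measurable_dc dc_iso dc_iso' faithful_interp)
open Pool.Agent.H642.CK (Io Cj Dn hm)
open Pool.Agent.H642.KK (L2 NT NT2 S_NT S_N2)

attribute [local instance] hm

/-- the three types -/
def Tp (Z : Type) [TopologicalSpace Z] : Prop :=
  (Nonempty Z ∧ ∀ x : Z, ¬ Io x) ∨ NT Z ∨ NT2 Z

theorem Tp.nonempty {Z : Type} [TopologicalSpace Z] (h : Tp Z) : Nonempty Z := by
  rcases h with h | h | h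
  · exact h.1
  · exact ⟨h.ne.choose⟩
  · exact ⟨h.ne.some⟩

section ex

attribute [local instance] tp

variable {Q : Type} [TopologicalSpace Q] [CompactSpace Q] [T2Space Q]
  [SecondCountableTopology Q] [TotallyDisconnectedSpace Q]

variable {V E : Type} {R : V → E → Prop}

/-- every bipartite graph comes from a homeomorphism of `Q` -/
theorem exists_mk (h1 : S_NT) (h2 : S_N2) (hQ : Tp Q) [Countable V] [Countable E]
    (hB : Bp V E R) : ∃ f : Q ≃ₜ Q, Nonempty (Mk f V E R Q) := by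
  have hfin : ∀ e, {v | R v e}.Finite := by
    intro e
    obtain ⟨v1, v2, h⟩ := hB.two e
    exact ((Set.finite_singleton v2).insert v1).subset fun v hv => h v hv
  have hne := hQ.nonempty
  have i1 : CompactSpace (Pt V E R Q) := compact_model hfin
  have i2 : T2Space (Pt V E R Q) := model_t2
  have i3 : TotallyDisconnectedSpace (Pt V E R Q) := model_td
  have i4 : SecondCountableTopology (Pt V E R Q) := model_sc
  have hh : Nonempty (Pt V E R Q ≃ₜ Q) := by
    rcases hQ with h | h | h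
    · have : Nonempty (Pt V E R Q) := ⟨.inf⟩
      obtain ⟨a⟩ := Pool.Agent.H155.KK.cantor_of (Pt V E R Q) (ty0 hB h.2)
      obtain ⟨b⟩ := Pool.Agent.H155.KK.cantor_of Q h.2
      exact ⟨a.trans b.symm⟩
    · exact h1 _ _ (ty1 hB h) h
    · exact h2 _ _ (ty2 hB h) h
  obtain ⟨h⟩ := hh
  refine ⟨(h.symm.trans shh).trans h, ⟨mk_shh.transport h fun y => ?_⟩⟩
  show h (shh y) = h (shh (h.symm (h y)))
  rw [h.symm_apply_apply]

end ex

section

variable {Z : Type} [TopologicalSpace Z] [CompactSpace Z] [T2Space Z]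
  [SecondCountableTopology Z] [TotallyDisconnectedSpace Z] [Nonempty Z]

variable {Q : Type} [TopologicalSpace Q] [CompactSpace Q] [T2Space Q]
  [TotallyDisconnectedSpace Q] [Nonempty Q]

variable {V E : Type} {R : V → E → Prop} {f g : Z ≃ₜ Z}

theorem moved (M : Mk f V E R Q) {x : Z} {v : V} {n : ℤ} (h : M.Φ x = .wan v n) : f x ≠ x := by
  intro h1
  have h2 := M.eq x
  rw [h1, h] at h2
  have h3 := (Pt.wan.inj h2).2
  omega

theorem rep_wan (M : Mk f V E R Q) (v : V) {U : Set Z} (hU : IsOpen U)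
    (h : pt M (.rep v) ∈ U) : ∃ x ∈ U, f x ≠ x := by
  obtain ⟨N, hN⟩ := (repA M v 0).shrink hU h
  have h1 := hN (pt M (.wan v (-1))) (by
    show inV v 0 (M.Φ _)
    rw [Φ_pt]
    exact ⟨rfl, by omega⟩) N le_rfl
  rw [it_pt] at h1
  exact ⟨_, h1, moved M (Φ_pt M _)⟩

theorem dn_of_mk (M : Mk f V E R Q) (hB : Bp V E R) : Dn f := by
  rintro U hU ⟨x, hx⟩
  by_cases h : f x = x
  · rcases fixed_pt (M := M) (x := x) (by rw [it_one, h]) with h1 | ⟨v, h1⟩ | ⟨e, h1⟩
    · have e1 := eq_pt h1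
      rw [e1] at hx
      have := hB.inf
      obtain ⟨v, hv⟩ := inf_rep M hU hx
      exact rep_wan M v hU hv
    · have e1 := eq_pt h1
      rw [e1] at hx
      exact rep_wan M v hU hx
    · have e1 := eq_pt h1
      rw [e1] at hx
      obtain ⟨N, hN⟩ := (attA M e 0).shrink hU hx
      obtain ⟨v, hv⟩ := hB.ne e
      obtain ⟨c₀⟩ := ‹Nonempty Q›
      have h2 := hN (pt M (.blk v e hv 0 c₀)) (by
        show inE e 0 (M.Φ _)
        rw [Φ_pt]
        exact ⟨rfl, le_rfl⟩) N le_rfl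
      rw [it_inv, it_pt] at h2
      refine ⟨_, h2, fun h3 => ?_⟩
      have h4 := M.eq (pt M (sh (-(-(N : ℤ))) (.blk v e hv 0 c₀)))
      rw [h3, Φ_pt] at h4
      have h5 := (Pt.blk.inj h4).2.2.1
      omega
  · exact ⟨x, hx, h⟩

/-- the decoding -/
noncomputable def dec (f : Z ≃ₜ Z) : BinStr := dc (fun f u => PV f u) (fun f u v => Ad f u v) f

theorem meas_dec : Measurable (dec : (Z ≃ₜ Z) → BinStr) := measurable_dc bp_pv bp_ad

theorem good_cj (h : Cj f g) (G : Good Q f) : Good Q g := by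
  obtain ⟨h, hh⟩ := h
  obtain ⟨M⟩ := good_mk G
  exact good_of_mk (M.transport h hh) (good_bp G)

theorem dec_iff (Gf : Good Q f) (Gg : Good Q g) : Cj f g ↔ BIso (dec f) (dec g) := by
  unfold dec
  rw [dc_iso Gf.g1 Gg.g1]
  constructor
  · rintro ⟨h, hh⟩
    obtain ⟨M⟩ := good_mk Gf
    obtain ⟨θ, hθ⟩ := graph_of_mk M (good_bp Gf)
    obtain ⟨θ', hθ'⟩ := graph_of_mk (M.transport h hh) (good_bp Gf)
    refine ⟨θ.symm.trans θ', fun u v => ?_⟩
    have h1 := hθ (θ.symm u) (θ.symm v)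
    have h2 := hθ' (θ.symm u) (θ.symm v)
    rw [θ.apply_symm_apply, θ.apply_symm_apply] at h1
    show Ad f u v ↔ Ad g (θ' (θ.symm u)) (θ' (θ.symm v))
    rw [h1, h2]
  · rintro ⟨π, hπ⟩
    obtain ⟨M⟩ := good_mk Gf
    obtain ⟨N⟩ := good_mk Gg
    have hA : ∀ {f : Z ≃ₜ Z} (u v : Vf f), Ad f u v ↔
        (u ≠ v ∧ ∃ e : Ef f, Rf f u e ∧ Rf f v e) := by
      intro f u v
      unfold Ad
      refine and_congr (not_congr Subtype.ext_iff.symm) ?_
      constructor
      · rintro ⟨w, h1, h2, h3⟩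
        exact ⟨⟨w, h1⟩, h2, h3⟩
      · rintro ⟨⟨w, h1⟩, h2, h3⟩
        exact ⟨w, h1, h2, h3⟩
    obtain ⟨ε, hε⟩ := extend (good_bp Gf) (good_bp Gg) π (fun u v => by
      rw [← hA, ← hA]
      exact hπ u v)
    exact (M.relabel π ε hε).conj N

end

section

variable {Q : Type} [TopologicalSpace Q] [CompactSpace Q] [T2Space Q]
  [SecondCountableTopology Q] [TotallyDisconnectedSpace Q]

theorem dec_surj (h1 : S_NT) (h2 : S_N2) (hQ : Tp Q) (x : BinStr) (hx : IsGraph x) :
    ∃ f : Q ≃ₜ Q, Good Q f ∧ BIso (dec f) x := by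
  have := hQ.nonempty
  obtain ⟨f, ⟨M⟩⟩ := exists_mk h1 h2 hQ (bp_graph x)
  have G := good_of_mk M (bp_graph x)
  obtain ⟨θ, hθ⟩ := graph_of_mk M (bp_graph x)
  refine ⟨f, G, ?_⟩
  unfold dec
  refine dc_iso' G.g1 θ fun m n => ?_
  rw [hθ]
  exact adj_graph x hx m n

/-- faithful completeness of conjugacy on the spaces of the three types -/
theorem faithful_tp (h1 : S_NT) (h2 : S_N2) (hQ : Tp Q) : Faithful (Cj (Z := Q)) Dn := by
  have := hQ.nonempty
  refine faithful_interp (target_Bip.faithful.mono (K' := IsGraph) fun y hy => hy.1)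
    (fun _ _ h => h.symm) (bp_good (Q := Q)) meas_dec (fun _ _ h G => good_cj h G)
    (fun _ _ Gf Gg => dec_iff Gf Gg) (dec_surj h1 h2 hQ) (fun f G => ?_)
  obtain ⟨M⟩ := good_mk G
  exact dn_of_mk M (good_bp G)

end

end Pool.Agent.H642.CQ
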