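import Pool.Agent.H642.CQ.CB
import Pool.Agent.H642.CK.Gd

set_option autoImplicit false
set_option linter.unusedSectionVars false

/-! Measurability. -/

namespace Pool.Agent.H642.CQ

open Set
open Pool.Agent.W889.VC (BP)

open Pool.Agent.H642.CK (hm)
open Pool.Agent.H642.CH (it it_zero it_one it_add it_neg it_neg' it_cont it_inv it_symm
  cpt_mono RepAt Bp)

attribute [local instance] hm

variable {Z : Type} [TopologicalSpace Z] [CompactSpace Z] [T2Space Z]
  [SecondCountableTopology Z] [TotallyDisconnectedSpace Z] [Nonempty Z]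

variable {Q : Type} [TopologicalSpace Q]

theorem bp_ev (x : Z) {A : Set Z} (hA : IsClopen A) : BP (fun f : Z ≃ₜ Z => f x ∈ A) := by
  letI : MeasurableSpace Z := borel Z
  haveI : BorelSpace Z := ⟨rfl⟩
  exact Pool.Agent.H642.CK.meas_ev x hA.isOpen.measurableSet

/-- a countable dense sequence -/
noncomputable def dq : ℕ → Z := TopologicalSpace.denseSeq Z

theorem all_iff {P : Z → Prop} (h : IsClosed {x | P x}) : (∀ x, P x) ↔ ∀ n, P (dq n) := by
  constructor
  · exact fun h1 n => h1 _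
  · intro h1 x
    have h2 : closure (range dq) ⊆ {x | P x} := by
      refine closure_minimal ?_ h
      rintro _ ⟨n, rfl⟩
      exact h1 n
    refine h2 ?_
    show x ∈ closure (range (TopologicalSpace.denseSeq Z))
    rw [(TopologicalSpace.denseRange_denseSeq Z).closure_range]
    trivial

theorem ex_iff {P : Z → Prop} (h : IsOpen {x | P x}) : (∃ x, P x) ↔ ∃ n, P (dq n) := by
  have := all_iff (P := fun x => ¬ P x) h.isClosed_compl
  constructor
  · intro h1
    by_contra h2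
    push Not at h2
    obtain ⟨x, hx⟩ := h1
    exact (this.2 h2) x hx
  · rintro ⟨n, hn⟩
    exact ⟨_, hn⟩

section

variable {Y : Type} [MeasurableSpace Y]

theorem bp_allpt {P : Y → Z → Prop} (h : ∀ x, BP (fun y => P y x))
    (hc : ∀ y, IsClosed {x | P y x}) : BP (fun y => ∀ x, P y x) :=
  (BP.all fun n => h (dq n)).congr fun y => (all_iff (hc y)).symm

theorem bp_expt {P : Y → Z → Prop} (h : ∀ x, BP (fun y => P y x))
    (hc : ∀ y, IsOpen {x | P y x}) : BP (fun y => ∃ x, P y x) :=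
  (BP.ex fun n => h (dq n)).congr fun y => (ex_iff (hc y)).symm

theorem sing_iff {K : ℕ → Set Z} (hK : ∀ n, IsClosed (K n)) (hm : ∀ n m, n ≤ m → K m ⊆ K n) :
    (∃! z, ∀ n, z ∈ K n) ↔ (∀ n, ∃ z, z ∈ K n) ∧
      ∀ j, ∃ n, (∀ z, z ∈ K n → z ∈ cl j) ∨ ∀ z, z ∈ K n → z ∉ cl j := by
  constructor
  · rintro ⟨z0, h0, h1⟩
    have key : ∀ A : Set Z, IsClopen A → z0 ∈ A → ∃ n, ∀ z, z ∈ K n → z ∈ A := by
      intro A hA hz
      obtain ⟨n, hn⟩ := cpt_mono (K := Aᶜ) hA.compl.isClosed.isCompact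
        (O := fun n => (K n)ᶜ) (fun n => (hK n).isOpen_compl)
        (fun n m hnm x hx hx' => hx (hm n m hnm hx')) (fun x hx => by
          by_contra hcon
          have : x = z0 := h1 x fun n => by
            by_contra h2
            exact hcon ⟨n, h2⟩
          apply hx
          rw [this]
          exact hz)
      refine ⟨n, fun z hz => ?_⟩
      by_contra h3
      exact hn z h3 hz
    refine ⟨fun n => ⟨z0, h0 n⟩, fun j => ?_⟩
    by_cases hj : z0 ∈ cl j
    · obtain ⟨n, hn⟩ := key _ (cl_clopen j) hj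
      exact ⟨n, Or.inl hn⟩
    · obtain ⟨n, hn⟩ := key _ (cl_clopen j).compl hj
      exact ⟨n, Or.inr hn⟩
  · rintro ⟨h1, h2⟩
    obtain ⟨z, hz⟩ := IsCompact.nonempty_iInter_of_sequence_nonempty_isCompact_isClosed K
      (fun n => hm n (n + 1) (Nat.le_succ n)) h1 (hK 0).isCompact hK
    rw [mem_iInter] at hz
    refine ⟨z, hz, fun z' hz' => ?_⟩
    by_contra hne
    obtain ⟨S, hS, h9, h10⟩ := exists_isClopen_of_totally_separated hne
    obtain ⟨j, rfl⟩ := cl_surj hS
    obtain ⟨n, h3 | h3⟩ := h2 j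
    · exact h10 (h3 z (hz n))
    · exact h3 z' (hz' n) h9

theorem bp_exu {K : Y → ℕ → Set Z} (hK : ∀ y n, IsClopen (K y n))
    (hm : ∀ y n m, n ≤ m → K y m ⊆ K y n) (h : ∀ n z, BP (fun y => z ∈ K y n)) :
    BP (fun y => ∃! z, ∀ n, z ∈ K y n) := by
  have h1 : ∀ n (A : Set Z), IsClopen A → BP (fun y => ∀ z, z ∈ K y n → z ∈ A) := fun n A hA =>
    bp_allpt (fun z => (h n z).imp (BP.const _)) (fun y => by
      have : {x : Z | x ∈ K y n → x ∈ A} = (K y n)ᶜ ∪ A := by
        ext x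
        simp [imp_iff_not_or]
      rw [this]
      exact ((hK y n).compl.union hA).isClosed)
  refine ((BP.all fun n => bp_expt (P := fun y z => z ∈ K y n) (h n)
    (fun y => (hK y n).isOpen)).and (BP.all fun j => BP.ex fun n =>
      (h1 n (cl j) (cl_clopen j)).or (h1 n (cl j)ᶜ (cl_clopen j).compl))).congr fun y =>
        (sing_iff (fun n => (hK y n).isClosed) (hm y)).symm

end

/-- inclusions between clopen sets -/
def Inc (f : Z ≃ₜ Z) (k : ℤ) (u w : ℕ) : Prop := ∀ x, x ∈ cl u → it f k x ∈ cl w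

theorem isClosed_imp' {p q : Z → Prop} (hp : IsClopen {x | p x}) (hq : IsClosed {x | q x}) :
    IsClosed {x | p x → q x} := by
  have : {x | p x → q x} = {x | p x}ᶜ ∪ {x | q x} := by
    ext x
    simp [imp_iff_not_or]
  rw [this]
  exact hp.compl.isClosed.union hq

theorem bp_inc1 (u w : ℕ) : BP (fun f : Z ≃ₜ Z => Inc f 1 u w) :=
  bp_allpt (fun x => (BP.const _).imp ((bp_ev x (cl_clopen w)).congr fun f => by rw [it_one]))
    (fun f => isClosed_imp' (cl_clopen u) ((cl_clopen w).preimage (it_cont f 1)).isClosed)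

theorem inc_add {f : Z ≃ₜ Z} {a b : ℤ} {u w : ℕ} :
    Inc f (a + b) u w ↔ ∃ m, Inc f b u m ∧ Inc f a m w := by
  constructor
  · intro h
    obtain ⟨m, hm⟩ := cl_surj ((cl_clopen w).preimage (it_cont f a))
    refine ⟨m, fun x hx => ?_, fun x hx => ?_⟩
    · rw [hm]
      show it f a (it f b x) ∈ cl w
      rw [← it_add]
      exact h x hx
    · rw [hm] at hx
      exact hx
  · rintro ⟨m, h1, h2⟩ x hx
    rw [it_add]
    exact h2 _ (h1 x hx)

theorem bp_incm (u w : ℕ) : BP (fun f : Z ≃ₜ Z => Inc f (-1) u w) := by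
  obtain ⟨u', hu⟩ := cl_surj (cl_clopen (Z := Z) u).compl
  obtain ⟨w', hw⟩ := cl_surj (cl_clopen (Z := Z) w).compl
  refine (bp_inc1 w' u').congr fun f => ?_
  unfold Inc
  rw [hu, hw]
  constructor
  · intro h x hx
    by_contra hcon
    have := h _ hcon
    rw [it_neg'] at this
    exact this hx
  · intro h x hx hx'
    have := h _ hx'
    rw [it_neg] at this
    exact hx this

theorem bp_inc (k : ℤ) : ∀ u w, BP (fun f : Z ≃ₜ Z => Inc f k u w) := by
  induction k using Int.induction_on with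
  | zero =>
    intro u w
    refine (BP.const (∀ x : Z, x ∈ cl u → x ∈ cl w)).congr fun f => ?_
    unfold Inc
    simp only [it_zero]
  | succ n ih =>
    intro u w
    exact (BP.ex fun m => (bp_inc1 u m).and (ih m w)).congr fun f => inc_add.symm
  | pred n ih =>
    intro u w
    rw [sub_eq_add_neg]
    exact (BP.ex fun m => (bp_incm u m).and (ih m w)).congr fun f => inc_add.symm

theorem bp_it (k : ℤ) (x : Z) (w : ℕ) : BP (fun f : Z ≃ₜ Z => it f k x ∈ cl w) := by
  refine (BP.ex fun u => (BP.const (x ∈ cl u)).and (bp_inc k u w)).congr fun f => ?_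
  constructor
  · rintro ⟨u, h1, h2⟩
    exact h2 x h1
  · intro h
    obtain ⟨m, hm⟩ := cl_surj ((cl_clopen w).preimage (it_cont f k))
    refine ⟨m, ?_, fun x hx => ?_⟩
    · rw [hm]
      exact h
    · rw [hm] at hx
      exact hx

theorem meas_inv : Measurable (fun f : Z ≃ₜ Z => f⁻¹) := by
  letI : MeasurableSpace Z := borel Z
  refine measurable_comap_iff.2 (measurable_pi_iff.2 fun x => ?_)
  have hb : borel Z = MeasurableSpace.generateFrom {s : Set Z | IsClopen s} :=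
    (loc_compact_Haus_tot_disc_of_zero_dim (H := Z)).borel_eq_generateFrom
  have h1 : @Measurable _ _ _ (MeasurableSpace.generateFrom {s : Set Z | IsClopen s})
      (fun f : Z ≃ₜ Z => f⁻¹ x) := by
    refine measurable_generateFrom fun s hs => ?_
    obtain ⟨w, hw⟩ := cl_surj hs
    refine (congrArg MeasurableSet (Set.ext fun f => ?_)).mp (bp_it (-1) x w)
    show it f (-1) x ∈ cl w ↔ f⁻¹ x ∈ s
    rw [hw, it_symm]
    rfl
  rw [← hb] at h1
  exact h1

theorem BP.inv {p : (Z ≃ₜ Z) → Prop} (h : BP p) : BP (fun f => p f⁻¹) := meas_inv h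

theorem bp_rc (u : ℕ) : BP (fun f : Z ≃ₜ Z => RC f u) := by
  have h1 : BP (fun f : Z ≃ₜ Z => ∃! z, ∀ n : ℕ, z ∈ {z | ∀ m ≤ n, it f (m : ℕ) z ∈ cl u}) := by
    refine bp_exu (fun f n => ?_) (fun f n m hnm z hz k hk => hz k (hk.trans hnm))
      (fun n z => BP.all fun m => (BP.const _).imp (bp_it m z u))
    have : {z : Z | ∀ m ≤ n, it f (m : ℕ) z ∈ cl u} = ⋂ m ∈ Finset.range (n + 1),
        {z | it f (m : ℕ) z ∈ cl u} := by
      ext z
      simp
    rw [this]
    exact isClopen_biInter_finset fun m _ => (cl_clopen u).preimage (it_cont f _)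
  refine ((bp_inc (-1) u u).and h1).congr fun f => ?_
  constructor
  · rintro ⟨h2, z, h3, h4⟩
    refine ⟨z, cl_clopen u, h2, fun x => ⟨fun h => h4 x fun n m _ => h m, ?_⟩⟩
    rintro rfl n
    exact h3 n n (le_refl _)
  · rintro ⟨z, hz⟩
    refine ⟨hz.bw, z, fun n m _ => (hz.pt z).2 rfl m, fun x hx => (hz.pt x).1 fun n =>
      hx n n (le_refl _)⟩

theorem bp_sm (u v : ℕ) : BP (fun f : Z ≃ₜ Z => Sm f u v) :=
  (BP.ex fun n : ℕ => bp_inc (-n) u v)

theorem bp_pv (u : ℕ) : BP (fun f : Z ≃ₜ Z => PV f u) :=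
  (bp_rc u).and (BP.all fun v => (BP.const (v < u)).imp ((bp_rc v).and (bp_sm v u)).not)

theorem bp_me (u w : ℕ) : BP (fun f : Z ≃ₜ Z => Me f u w) := by
  refine (BP.ex fun n : ℕ => bp_expt (P := fun (f : Z ≃ₜ Z) x => x ∈ cl u ∧ it f n x ∈ cl w)
    (fun x => (BP.const _).and (bp_it n x w)) (fun f => ((cl_clopen u).inter
      ((cl_clopen w).preimage (it_cont f n))).isOpen)).congr fun f => ?_
  unfold Me
  constructor
  · rintro ⟨n, x, h1, h2⟩
    exact ⟨x, h1, n, h2⟩
  · rintro ⟨x, h1, n, h2⟩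
    exact ⟨n, x, h1, h2⟩

theorem bp_ad (u v : ℕ) : BP (fun f : Z ≃ₜ Z => Ad f u v) :=
  (BP.const _).and (BP.ex fun w => (BP.inv (bp_pv w)).and ((bp_me u w).and (bp_me v w)))

theorem clopen_lt {P : ℕ → ℕ → Z → Prop} (h : ∀ a b, IsClopen {z | P a b z}) (c : ℕ → Prop)
    (n : ℕ) : IsClopen {z | ∀ a < n, c a → ∀ b < n, P a b z} := by
  classical
  have : {z | ∀ a < n, c a → ∀ b < n, P a b z} = ⋂ a ∈ (Finset.range n).filter c,
      ⋂ b ∈ Finset.range n, {z | P a b z} := by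
    ext z
    simp
  rw [this]
  exact isClopen_biInter_finset fun a _ => isClopen_biInter_finset fun b _ => h a b

theorem lt_iff {P : ℕ → ℕ → Prop} {c : ℕ → Prop} :
    (∀ n, ∀ a < n, c a → ∀ b < n, P a b) ↔ ∀ a, c a → ∀ b, P a b := by
  constructor
  · intro h a ha b
    exact h (max a b + 1) a (by omega) ha b (by omega)
  · intro h n a _ ha b _
    exact h a ha b

theorem exu_congr {p q : Z → Prop} (h : ∀ z, p z ↔ q z) : (∃! z, p z) ↔ ∃! z, q z := by
  have : p = q := funext fun z => propext (h z)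
  rw [this]

theorem bp_good : BP (fun f : Z ≃ₜ Z => Good Q f) := by
  have r : ∀ u, BP (fun f : Z ≃ₜ Z => RC f u) := bp_rc
  have a : ∀ u, BP (fun f : Z ≃ₜ Z => RC f⁻¹ u) := fun u => BP.inv (bp_rc u)
  have pv : ∀ u, BP (fun f : Z ≃ₜ Z => PV f u) := bp_pv
  have pe : ∀ u, BP (fun f : Z ≃ₜ Z => PV f⁻¹ u) := fun u => BP.inv (bp_pv u)
  have cit : ∀ (f : Z ≃ₜ Z) (k : ℤ) u, IsClopen {x | it f k x ∈ cl u} := fun f k u =>
    (cl_clopen u).preimage (it_cont f k)
  have t0 : BP (fun f : Z ≃ₜ Z => ∀ u w, RC f u → RC f⁻¹ w →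
      ∃ n : ℕ, ∀ x, it f n x ∈ cl u → x ∉ cl w) :=
    BP.all fun u => BP.all fun w => (r u).imp ((a w).imp (BP.ex fun n : ℕ =>
      bp_allpt (fun x => (bp_it n x u).imp (BP.const _))
        (fun f => isClosed_imp' (cit f n u) (cl_clopen w).compl.isClosed)))
  have t1 : BP (fun f : Z ≃ₜ Z => ∀ N, ∃ u, N ≤ u ∧ PV f u) :=
    BP.all fun N => BP.ex fun u => (BP.const _).and (pv u)
  have t2 : BP (fun f : Z ≃ₜ Z => ∀ u w, RC f u → RC f⁻¹ w → ∃ N : ℕ, ∀ x, x ∉ cl u →
      it f (-1) x ∈ cl u → ∀ n : ℕ, it f n x ∈ cl w → it f N x ∈ cl w) :=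
    BP.all fun u => BP.all fun w => (r u).imp ((a w).imp (BP.ex fun N : ℕ =>
      bp_allpt (fun x => (BP.const _).imp ((bp_it (-1) x u).imp (BP.all fun n : ℕ =>
        (bp_it n x w).imp (bp_it N x w))))
        (fun f => isClosed_imp' (cl_clopen u).compl (isClosed_imp' (cit f _ u) (by
          have : {x | ∀ n : ℕ, it f n x ∈ cl w → it f N x ∈ cl w} =
              ⋂ n : ℕ, {x | it f n x ∈ cl w → it f N x ∈ cl w} := by
            ext x
            simp
          rw [this]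
          exact isClosed_iInter fun n => isClosed_imp' (cit f _ w) (cit f _ w).isClosed)))))
  have t3 : BP (fun f : Z ≃ₜ Z => ∀ u, RC f u → ∃! z, (z ∉ cl u ∧ it f (-1) z ∈ cl u) ∧
      ∀ w, RC f⁻¹ w → ∀ n : ℕ, it f n z ∉ cl w) := by
    refine BP.all fun u => (r u).imp ?_
    have h1 : BP (fun f : Z ≃ₜ Z => ∃! z, ∀ n : ℕ, z ∈ {z | (z ∉ cl u ∧ it f (-1) z ∈ cl u) ∧
        ∀ w < n, RC f⁻¹ w → ∀ m < n, it f (m : ℕ) z ∉ cl w}) := by
      refine bp_exu (fun f n => ((cl_clopen u).compl.inter (cit f _ u)).inter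
        (clopen_lt (P := fun w m z => it f (m : ℕ) z ∉ cl w) (fun w m => (cit f m w).compl) _ n))
        (fun f n m hnm z hz => ⟨hz.1, fun w hw hr k hk => hz.2 w (hw.trans_le hnm) hr k
          (hk.trans_le hnm)⟩)
        (fun n z => ((BP.const _).and (bp_it _ z u)).and (BP.all fun w => (BP.const _).imp
          ((a w).imp (BP.all fun m => (BP.const _).imp (bp_it _ z w).not))))
    refine h1.congr fun f => exu_congr fun z => ?_
    constructor
    · intro h
      exact ⟨(h 0).1, lt_iff.1 fun n => (h n).2⟩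
    · intro h n
      exact ⟨h.1, lt_iff.2 h.2 n⟩
  have t4 : BP (fun f : Z ≃ₜ Z => ∃! z, (∀ u, RC f u → ∀ n : ℕ, it f (-n) z ∉ cl u) ∧
      ∀ w, RC f⁻¹ w → ∀ n : ℕ, it f n z ∉ cl w) := by
    have h1 : BP (fun f : Z ≃ₜ Z => ∃! z, ∀ n : ℕ, z ∈ {z |
        (∀ u < n, RC f u → ∀ m < n, it f (-(m : ℕ)) z ∉ cl u) ∧
        ∀ w < n, RC f⁻¹ w → ∀ m < n, it f (m : ℕ) z ∉ cl w}) := by
      refine bp_exu (fun f n => (clopen_lt (P := fun w m z => it f (-(m : ℕ)) z ∉ cl w)
        (fun w m => (cit f _ w).compl) _ n).inter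
        (clopen_lt (P := fun w m z => it f (m : ℕ) z ∉ cl w) (fun w m => (cit f m w).compl) _ n))
        (fun f n m hnm z hz => ⟨fun w hw hr k hk => hz.1 w (hw.trans_le hnm) hr k
          (hk.trans_le hnm), fun w hw hr k hk => hz.2 w (hw.trans_le hnm) hr k
          (hk.trans_le hnm)⟩)
        (fun n z => (BP.all fun w => (BP.const _).imp
          ((r w).imp (BP.all fun m => (BP.const _).imp (bp_it _ z w).not))).and
          (BP.all fun w => (BP.const _).imp
          ((a w).imp (BP.all fun m => (BP.const _).imp (bp_it _ z w).not))))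
    refine h1.congr fun f => exu_congr fun z => ?_
    constructor
    · intro h
      exact ⟨lt_iff.1 fun n => (h n).1, lt_iff.1 fun n => (h n).2⟩
    · intro h n
      exact ⟨lt_iff.2 h.1 n, lt_iff.2 h.2 n⟩
  have t5 : BP (fun f : Z ≃ₜ Z => ∀ w, RC f⁻¹ w → ∃ u1 u2, RC f u1 ∧ RC f u2 ∧ ∃ N : ℕ, ∀ x,
      x ∈ cl w → it f (-1) x ∉ cl w → it f (-N) x ∈ cl u1 ∨ it f (-N) x ∈ cl u2) :=
    BP.all fun w => (a w).imp (BP.ex fun u1 => BP.ex fun u2 => (r u1).and ((r u2).and
      (BP.ex fun N : ℕ => bp_allpt (fun x => (BP.const _).imp ((bp_it _ x w).not.imp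
        ((bp_it _ x u1).or (bp_it _ x u2))))
        (fun f => isClosed_imp' (cl_clopen w) (isClosed_imp' (cit f _ w).compl
          ((cit f _ u1).union (cit f _ u2)).isClosed)))))
  have t6 : BP (fun f : Z ≃ₜ Z => ∀ u v w w', PV f u → PV f v → u ≠ v → PV f⁻¹ w → PV f⁻¹ w' →
      Me f u w → Me f v w → Me f u w' → Me f v w' → w = w') :=
    BP.all fun u => BP.all fun v => BP.all fun w => BP.all fun w' => (pv u).imp ((pv v).imp
      ((BP.const _).imp ((pe w).imp ((pe w').imp ((bp_me u w).imp ((bp_me v w).imp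
        ((bp_me u w').imp ((bp_me v w').imp (BP.const _)))))))))
  have t7 : BP (fun f : Z ≃ₜ Z => ∀ u, PV f u → ∀ N, ∃ w, N ≤ w ∧ PV f⁻¹ w ∧ Me f u w ∧
      ∀ v, PV f v → Me f v w → v = u) :=
    BP.all fun u => (pv u).imp (BP.all fun N => BP.ex fun w => (BP.const _).and ((pe w).and
      ((bp_me u w).and (BP.all fun v => (pv v).imp ((bp_me v w).imp (BP.const _))))))
  have t8 : BP (fun f : Z ≃ₜ Z => ∀ w, RC f⁻¹ w → ∃ u, PV f u ∧ Me f u w) :=
    BP.all fun w => (a w).imp (BP.ex fun u => (pv u).and (bp_me u w))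
  have t9 : BP (fun f : Z ≃ₜ Z => ∀ u w, RC f u → RC f⁻¹ w → Me f u w → ∃ N : ℕ,
      (∀ x, x ∉ cl u → it f (-1) x ∈ cl u → ∀ n : ℕ, it f n x ∈ cl w → it f N x ∈ cl w) ∧
      ∃ m, Nonempty ((cl m : Set Z) ≃ₜ Q) ∧
      ∀ x, x ∈ cl m ↔ (x ∉ cl u ∧ it f (-1) x ∈ cl u) ∧ it f N x ∈ cl w) :=
    BP.all fun u => BP.all fun w => (r u).imp ((a w).imp ((bp_me u w).imp (BP.ex fun N : ℕ =>
      (bp_allpt (fun x => (BP.const _).imp ((bp_it (-1) x u).imp (BP.all fun n : ℕ =>
        (bp_it n x w).imp (bp_it N x w))))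
        (fun f => isClosed_imp' (cl_clopen u).compl (isClosed_imp' (cit f _ u) (by
          have : {x | ∀ n : ℕ, it f n x ∈ cl w → it f N x ∈ cl w} =
              ⋂ n : ℕ, {x | it f n x ∈ cl w → it f N x ∈ cl w} := by
            ext x
            simp
          rw [this]
          exact isClosed_iInter fun n => isClosed_imp' (cit f _ w) (cit f _ w).isClosed)))).and
      (BP.ex fun m => (BP.const _).and (bp_allpt (fun x => (BP.const _).iff
        (((BP.const _).and (bp_it _ x u)).and (bp_it _ x w))) (fun f => by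
          have h1 : IsClopen {x | (x ∉ cl u ∧ it f (-1) x ∈ cl u) ∧ it f N x ∈ cl w} :=
            ((cl_clopen u).compl.inter (cit f _ u)).inter (cit f _ w)
          have : {x | x ∈ cl m ↔ (x ∉ cl u ∧ it f (-1) x ∈ cl u) ∧ it f N x ∈ cl w} =
              {x | x ∈ cl m → (x ∉ cl u ∧ it f (-1) x ∈ cl u) ∧ it f N x ∈ cl w} ∩
              {x | (x ∉ cl u ∧ it f (-1) x ∈ cl u) ∧ it f N x ∈ cl w → x ∈ cl m} := by
            ext x
            exact iff_def
          rw [this]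
          exact (isClosed_imp' (cl_clopen m) h1.isClosed).inter
            (isClosed_imp' h1 (cl_clopen m).isClosed)))))))
  refine (t0.and (t1.and (t2.and (t3.and (t4.and (t5.and (t6.and (t7.and (t8.and
    t9))))))))).congr fun f => ⟨?_, ?_⟩
  · rintro ⟨g0, g1, g2, g3, g4, g5, g6, g7, g8, g9⟩
    exact ⟨g0, g1, g2, g3, g4, g5, g6, g7, g8, g9⟩
  · rintro ⟨g0, g1, g2, g3, g4, g5, g6, g7, g8, g9⟩
    exact ⟨g0, g1, g2, g3, g4, g5, g6, g7, g8, g9⟩

end Pool.Agent.H642.CQ
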