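import Pool.Agent.H642.CH.DB

set_option autoImplicit false
set_option linter.unusedSectionVars false

/-! The model systems with blocks homeomorphic to `Q`. -/

namespace Pool.Agent.H642.CQ

open Set
open Pool.Agent.H642.CH (it it_zero it_one it_add it_neg it_neg' it_cont it_inv it_symm)

variable {Q : Type}

/-- the points of the model over the bipartite graph `R` -/
inductive Pt (V E : Type) (R : V → E → Prop) (Q : Type) : Type
  | inf : Pt V E R Q
  | rep (v : V) : Pt V E R Q
  | att (e : E) : Pt V E R Q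
  | wan (v : V) (n : ℤ) : Pt V E R Q
  | blk (v : V) (e : E) (h : R v e) (n : ℤ) (c : Q) : Pt V E R Q

variable {V E : Type} {R : V → E → Prop}

/-- the shift -/
def sh (k : ℤ) : Pt V E R Q → Pt V E R Q
  | .inf => .inf
  | .rep v => .rep v
  | .att e => .att e
  | .wan v n => .wan v (n + k)
  | .blk v e h n c => .blk v e h (n + k) c

/-- `p` is in the `n`-th image of the neighbourhood of the repelling point `v` -/
def inV (v : V) (n : ℤ) : Pt V E R Q → Prop
  | .inf => False
  | .rep v' => v' = v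
  | .att _ => False
  | .wan v' m => v' = v ∧ m < n
  | .blk v' _ _ m _ => v' = v ∧ m < n

/-- `p` is in the `n`-th image of the neighbourhood of the attracting point `e` -/
def inE (e : E) (n : ℤ) : Pt V E R Q → Prop
  | .inf => False
  | .rep _ => False
  | .att e' => e' = e
  | .wan _ _ => False
  | .blk _ e' _ m _ => e' = e ∧ n ≤ m

/-- the coordinates in the blocks -/
def inC (v : V) (e : E) (n : ℤ) (S : Set Q) : Pt V E R Q → Prop
  | .inf => False
  | .rep _ => False
  | .att _ => False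
  | .wan _ _ => False
  | .blk v' e' _ m c => v' = v ∧ e' = e ∧ m = n ∧ c ∈ S

theorem sh_add (a b : ℤ) (p : Pt V E R Q) : sh (a + b) p = sh a (sh b p) := by
  cases p <;> simp [sh] <;> omega

theorem sh_zero (p : Pt V E R Q) : sh 0 p = p := by
  cases p <;> simp [sh]

theorem inV_sh (v : V) (n k : ℤ) (p : Pt V E R Q) : inV v n (sh k p) ↔ inV v (n - k) p := by
  cases p <;> simp [sh, inV] <;> intros <;> omega

theorem inE_sh (e : E) (n k : ℤ) (p : Pt V E R Q) : inE e n (sh k p) ↔ inE e (n - k) p := by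
  cases p <;> simp [sh, inE]

theorem inC_sh (v : V) (e : E) (n k : ℤ) (S : Set Q) (p : Pt V E R Q) :
    inC v e n S (sh k p) ↔ inC v e (n - k) S p := by
  cases p <;> simp [sh, inC] <;> intros <;> omega

/-- the blocks are the intersections -/
theorem blk_of {v : V} {e : E} {n m : ℤ} {p : Pt V E R Q} (h1 : inV v n p) (h2 : inE e m p) :
    ∃ (h : R v e) (k : ℤ) (c : Q), p = .blk v e h k c ∧ m ≤ k ∧ k < n := by
  cases p with
  | inf => exact h1.elim
  | rep _ => exact h2.elim
  | att _ => exact h1.elim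
  | wan _ _ => exact h2.elim
  | blk v' e' h k c =>
    obtain ⟨rfl, h3⟩ := h1
    obtain ⟨rfl, h4⟩ := h2
    exact ⟨h, k, c, rfl, h4, h3⟩

theorem inV_uniq {v v' : V} {n m : ℤ} {p : Pt V E R Q} (h1 : inV v n p) (h2 : inV v' m p) :
    v = v' := by
  cases p with
  | inf => exact h1.elim
  | rep _ => exact Eq.trans (Eq.symm h1) h2
  | att _ => exact h1.elim
  | wan _ _ => exact h1.1.symm.trans h2.1
  | blk _ _ _ _ _ => exact h1.1.symm.trans h2.1

theorem inE_uniq {e e' : E} {n m : ℤ} {p : Pt V E R Q} (h1 : inE e n p) (h2 : inE e' m p) :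
    e = e' := by
  cases p with
  | inf => exact h1.elim
  | rep _ => exact h1.elim
  | att _ => exact Eq.trans (Eq.symm h1) h2
  | wan _ _ => exact h1.elim
  | blk _ _ _ _ _ => exact h1.1.symm.trans h2.1

/-- the points are determined by the coordinates -/
theorem Pt.ext' [TopologicalSpace Q] [TotallySeparatedSpace Q]
    {p q : Pt V E R Q} (h1 : ∀ v n, inV v n p ↔ inV v n q)
    (h2 : ∀ e n, inE e n p ↔ inE e n q)
    (h3 : ∀ v e n S, IsClopen S → (inC v e n S p ↔ inC v e n S q)) :
    p = q := by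
  cases p with
  | inf =>
    cases q with
    | inf => rfl
    | rep v => exact ((h1 v 0).2 rfl).elim
    | att e => exact ((h2 e 0).2 rfl).elim
    | wan v n => exact ((h1 v (n + 1)).2 ⟨rfl, by omega⟩).elim
    | blk v e h n c => exact ((h1 v (n + 1)).2 ⟨rfl, by omega⟩).elim
  | rep v =>
    cases q with
    | inf => exact ((h1 v 0).1 rfl).elim
    | rep v' => rw [(h1 v 0).1 rfl]
    | att e => exact ((h2 e 0).2 rfl).elim
    | wan v' n =>
      have := ((h1 v n).1 rfl).2
      omega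
    | blk v' e h n c =>
      have := ((h1 v n).1 rfl).2
      omega
  | att e =>
    cases q with
    | inf => exact ((h2 e 0).1 rfl).elim
    | rep v => exact ((h1 v 0).2 rfl).elim
    | att e' => rw [(h2 e 0).1 rfl]
    | wan v n => exact ((h1 v (n + 1)).2 ⟨rfl, by omega⟩).elim
    | blk v e' h n c => exact ((h1 v (n + 1)).2 ⟨rfl, by omega⟩).elim
  | wan v n =>
    cases q with
    | inf => exact ((h1 v (n + 1)).1 ⟨rfl, by omega⟩).elim
    | rep v' =>
      have := ((h1 v' n).2 rfl).2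
      omega
    | att e => exact ((h2 e 0).2 rfl).elim
    | wan v' n' =>
      obtain ⟨rfl, h4⟩ := (h1 v (n + 1)).1 ⟨rfl, by omega⟩
      obtain ⟨-, h5⟩ := (h1 v' (n' + 1)).2 ⟨rfl, by omega⟩
      have : n = n' := by omega
      rw [this]
    | blk v' e h n' c => exact ((h2 e n').2 ⟨rfl, le_refl _⟩).elim
  | blk v e h n c =>
    cases q with
    | inf => exact ((h1 v (n + 1)).1 ⟨rfl, by omega⟩).elim
    | rep v' => exact ((h2 e n).1 ⟨rfl, le_refl _⟩).elim
    | att e' => exact ((h1 v (n + 1)).1 ⟨rfl, by omega⟩).elim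
    | wan v' n' => exact ((h2 e n).1 ⟨rfl, le_refl _⟩).elim
    | blk v' e' h' n' c' =>
      obtain ⟨rfl, h4⟩ := (h1 v (n + 1)).1 ⟨rfl, by omega⟩
      obtain ⟨-, h5⟩ := (h1 v' (n' + 1)).2 ⟨rfl, by omega⟩
      obtain ⟨rfl, h6⟩ := (h2 e n).1 ⟨rfl, le_refl _⟩
      have h7 : n = n' := by omega
      subst h7
      have h8 : c = c' := by
        by_contra hne
        obtain ⟨S, hS, h9, h10⟩ := exists_isClopen_of_totally_separated hne
        exact h10 ((h3 v' e' n S hS).1 ⟨rfl, rfl, rfl, h9⟩).2.2.2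
      rw [h8]

variable [TopologicalSpace Q]

/-- a marked system -/
structure Mk {Y : Type} [TopologicalSpace Y] (f : Y ≃ₜ Y) (V E : Type) (R : V → E → Prop)
    (Q : Type) [TopologicalSpace Q] where
  Φ : Y ≃ Pt V E R Q
  eq : ∀ y, Φ (f y) = sh 1 (Φ y)
  clV : ∀ v, IsClopen {y | inV v 0 (Φ y)}
  clE : ∀ e, IsClopen {y | inE e 0 (Φ y)}
  clC : ∀ v e S, IsClopen S → IsClopen {y | inC v e 0 S (Φ y)}

namespace Mk

variable {Y : Type} [TopologicalSpace Y] {f : Y ≃ₜ Y} (M : Mk f V E R Q)

theorem eq' (k : ℤ) (y : Y) : M.Φ (it f k y) = sh k (M.Φ y) := by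
  have h1 : ∀ y, M.Φ (it f 1 y) = sh 1 (M.Φ y) := fun y => by rw [it_one, M.eq]
  have h2 : ∀ y, M.Φ (it f (-1) y) = sh (-1) (M.Φ y) := fun y => by
    have h3 := h1 (it f (-1) y)
    rw [it_neg'] at h3
    rw [h3, ← sh_add]
    exact (sh_zero _).symm
  induction k using Int.induction_on generalizing y with
  | zero => rw [it_zero, sh_zero]
  | succ n ih => rw [it_add, ih, h1, sh_add]
  | pred n ih => rw [sub_eq_add_neg, it_add, ih, h2, sh_add]

theorem opV (v : V) (n : ℤ) : IsClopen {y | inV v n (M.Φ y)} := by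
  have : {y | inV v n (M.Φ y)} = it f (-n) ⁻¹' {y | inV v 0 (M.Φ y)} := by
    ext y
    show inV v n (M.Φ y) ↔ inV v 0 (M.Φ (it f (-n) y))
    rw [M.eq', inV_sh, sub_neg_eq_add, zero_add]
  rw [this]
  exact (M.clV v).preimage (it_cont f _)

theorem opE (e : E) (n : ℤ) : IsClopen {y | inE e n (M.Φ y)} := by
  have : {y | inE e n (M.Φ y)} = it f (-n) ⁻¹' {y | inE e 0 (M.Φ y)} := by
    ext y
    show inE e n (M.Φ y) ↔ inE e 0 (M.Φ (it f (-n) y))
    rw [M.eq', inE_sh, sub_neg_eq_add, zero_add]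
  rw [this]
  exact (M.clE e).preimage (it_cont f _)

theorem opC (v : V) (e : E) (n : ℤ) {S : Set Q} (hS : IsClopen S) :
    IsClopen {y | inC v e n S (M.Φ y)} := by
  have : {y | inC v e n S (M.Φ y)} = it f (-n) ⁻¹' {y | inC v e 0 S (M.Φ y)} := by
    ext y
    show inC v e n S (M.Φ y) ↔ inC v e 0 S (M.Φ (it f (-n) y))
    rw [M.eq', inC_sh, sub_neg_eq_add, zero_add]
  rw [this]
  exact (M.clC v e S hS).preimage (it_cont f _)

end Mk

/-- the coordinates -/
abbrev Co (V E Q : Type) [TopologicalSpace Q] : Type :=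
  (V × ℤ) ⊕ ((E × ℤ) ⊕ ((V × E) × (ℤ × {S : Set Q // IsClopen S})))

/-- the value of a coordinate, as a proposition -/
def cp (p : Pt V E R Q) : Co V E Q → Prop
  | .inl (v, n) => inV v n p
  | .inr (.inl (e, n)) => inE e n p
  | .inr (.inr ((v, e), (n, S))) => inC v e n S.1 p

open Classical in
/-- the value of a coordinate -/
noncomputable def cd (p : Pt V E R Q) (s : Co V E Q) : Bool := decide (cp p s)

theorem cd_iff {p : Pt V E R Q} {s : Co V E Q} : cd p s = true ↔ cp p s := by
  simp [cd]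

theorem cd_inj [TotallySeparatedSpace Q] :
    Function.Injective (cd : Pt V E R Q → Co V E Q → Bool) := by
  intro p q h
  have h1 : ∀ s, cp p s ↔ cp q s := fun s => by
    rw [← cd_iff, ← cd_iff, h]
  exact Pt.ext' (fun v n => h1 (.inl (v, n))) (fun e n => h1 (.inr (.inl (e, n))))
    (fun v e n S hS => h1 (.inr (.inr ((v, e), (n, ⟨S, hS⟩)))))

theorem Mk.cont {Y : Type} [TopologicalSpace Y] {f : Y ≃ₜ Y} (M : Mk f V E R Q) :
    Continuous (fun y => cd (M.Φ y)) := by
  refine continuous_pi fun s => ?_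
  have h : IsClopen {y | cd (M.Φ y) s = true} := by
    have : {y | cd (M.Φ y) s = true} = {y | cp (M.Φ y) s} := by
      ext y
      exact cd_iff
    rw [this]
    rcases s with ⟨v, n⟩ | ⟨e, n⟩ | ⟨⟨v, e⟩, ⟨n, S, hS⟩⟩
    · exact M.opV v n
    · exact M.opE e n
    · exact M.opC v e n hS
  refine continuous_bool_rng true |>.2 ?_
  exact h

/-- two marked systems over the same graph are conjugate -/
theorem Mk.conj [TotallySeparatedSpace Q] {Y Z : Type} [TopologicalSpace Y] [TopologicalSpace Z] [CompactSpace Y]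
    [CompactSpace Z] [T2Space Y] [T2Space Z] {f : Y ≃ₜ Y} {g : Z ≃ₜ Z} (M : Mk f V E R Q)
    (N : Mk g V E R Q) : ∃ h : Y ≃ₜ Z, ∀ y, h (f y) = g (h y) := by
  let e : Y ≃ Z := M.Φ.trans N.Φ.symm
  have he : ∀ y, N.Φ (e y) = M.Φ y := fun y => N.Φ.apply_symm_apply _
  have hemb : Topology.IsClosedEmbedding (fun z => cd (N.Φ z)) :=
    N.cont.isClosedEmbedding (cd_inj.comp N.Φ.injective)
  have hc : Continuous e := by
    rw [hemb.isEmbedding.continuous_iff]
    have : (fun z => cd (N.Φ z)) ∘ e = fun y => cd (M.Φ y) := by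
      funext y
      show cd (N.Φ (e y)) = _
      rw [he]
    rw [this]
    exact M.cont
  refine ⟨Continuous.homeoOfEquivCompactToT2 hc, fun y => ?_⟩
  show e (f y) = g (e y)
  apply N.Φ.injective
  rw [he, M.eq, N.eq, he]

/-- transport of a marking along a conjugation -/
def Mk.transport {Y Z : Type} [TopologicalSpace Y] [TopologicalSpace Z] {f : Y ≃ₜ Y} {g : Z ≃ₜ Z}
    (M : Mk f V E R Q) (h : Y ≃ₜ Z) (hh : ∀ y, h (f y) = g (h y)) : Mk g V E R Q where
  Φ := h.symm.toEquiv.trans M.Φ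
  eq := fun z => by
    show M.Φ (h.symm (g z)) = sh 1 (M.Φ (h.symm z))
    rw [← M.eq]
    congr 1
    rw [h.symm_apply_eq, hh, h.apply_symm_apply]
  clV := fun v => (M.clV v).preimage h.symm.continuous
  clE := fun e => (M.clE e).preimage h.symm.continuous
  clC := fun v e S hS => (M.clC v e S hS).preimage h.symm.continuous

/-- relabelling the points -/
def relab {V' E' : Type} {R' : V' → E' → Prop} (π : V ≃ V') (ε : E ≃ E')
    (h : ∀ v e, R v e ↔ R' (π v) (ε e)) : Pt V E R Q ≃ Pt V' E' R' Q where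
  toFun
    | .inf => .inf
    | .rep v => .rep (π v)
    | .att e => .att (ε e)
    | .wan v n => .wan (π v) n
    | .blk v e k n c => .blk (π v) (ε e) ((h v e).1 k) n c
  invFun
    | .inf => .inf
    | .rep v => .rep (π.symm v)
    | .att e => .att (ε.symm e)
    | .wan v n => .wan (π.symm v) n
    | .blk v e k n c => .blk (π.symm v) (ε.symm e)
        ((h _ _).2 (by rwa [π.apply_symm_apply, ε.apply_symm_apply])) n c
  left_inv := by
    intro p
    cases p <;> simp
  right_inv := by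
    intro p
    cases p <;> simp

/-- relabelling a marking -/
def Mk.relabel {Y : Type} [TopologicalSpace Y] {f : Y ≃ₜ Y} (M : Mk f V E R Q)
    {V' E' : Type} {R' : V' → E' → Prop} (π : V ≃ V') (ε : E ≃ E')
    (h : ∀ v e, R v e ↔ R' (π v) (ε e)) : Mk f V' E' R' Q where
  Φ := M.Φ.trans (relab π ε h)
  eq := fun y => by
    show relab π ε h (M.Φ (f y)) = sh 1 (relab π ε h (M.Φ y))
    rw [M.eq]
    cases M.Φ y <;> rfl
  clV := fun v => by
    have : {y | inV v 0 ((M.Φ.trans (relab π ε h)) y)} = {y | inV (π.symm v) 0 (M.Φ y)} := by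
      ext y
      show inV v 0 (relab π ε h (M.Φ y)) ↔ inV (π.symm v) 0 (M.Φ y)
      cases M.Φ y <;> simp [relab, inV, Equiv.eq_symm_apply]
    rw [this]
    exact M.clV _
  clE := fun e => by
    have : {y | inE e 0 ((M.Φ.trans (relab π ε h)) y)} = {y | inE (ε.symm e) 0 (M.Φ y)} := by
      ext y
      show inE e 0 (relab π ε h (M.Φ y)) ↔ inE (ε.symm e) 0 (M.Φ y)
      cases M.Φ y <;> simp [relab, inE, Equiv.eq_symm_apply]
    rw [this]
    exact M.clE _
  clC := fun v e S hS => by
    have : {y | inC v e 0 S ((M.Φ.trans (relab π ε h)) y)} =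
        {y | inC (π.symm v) (ε.symm e) 0 S (M.Φ y)} := by
      ext y
      show inC v e 0 S (relab π ε h (M.Φ y)) ↔ inC (π.symm v) (ε.symm e) 0 S (M.Φ y)
      cases M.Φ y <;> simp [relab, inC, Equiv.eq_symm_apply]
    rw [this]
    exact M.clC _ _ _ hS

end Pool.Agent.H642.CQ
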